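import Mathlib

/-!
# The union of two matchings is 2-colourable

For two involutions `α`, `β` without fixed points: `σ = β α`; `α e` is never in the orbit of `e` under `σ` (if `α e = σ ^ (2 j) e` then `σ ^ j e` is fixed by `α`, if
`α e = σ ^ (2 j + 1) e` then `α (σ ^ j e)` is fixed by `β`), so one can colour the orbits of `σ` such that the orbits of `e` and `α e` have different
colours (the orbit of `β e` is that of `α e`).  Two partial matchings are completed on `E × Bool`.
-/

set_option autoImplicit false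

namespace Pool.Agent.H70.TF

theorem Match_orbit {E : Type} (α β : Equiv.Perm E) (ha : α * α = 1) (hb : β * β = 1) (ha0 : ∀ e, α e ≠ e) (hb0 : ∀ e, β e ≠ e)
    (k : ℤ) (e : E) : α e ≠ ((β * α) ^ k) e := by
  intro h
  have hai : α⁻¹ = α := inv_eq_of_mul_eq_one_left ha
  have hbi : β⁻¹ = β := inv_eq_of_mul_eq_one_left hb
  set σ : Equiv.Perm E := β * α with hσ
  have hconj : α * σ * α⁻¹ = σ⁻¹ := by
    rw [hσ, mul_inv_rev, hai, hbi]
    rw [mul_assoc, mul_assoc, ha, mul_one]
  have hz : ∀ j : ℤ, ∀ f, α ((σ ^ j) f) = (σ ^ (-j)) (α f) := by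
    intro j f
    have h1 : α * σ ^ j = σ ^ (-j) * α := by
      have h2 : α * σ ^ j * α⁻¹ = σ ^ (-j) := by
        rw [← conj_zpow, hconj, inv_zpow, zpow_neg]
      rw [← h2]
      group
    have h3 := congrArg (fun q : Equiv.Perm E => q f) h1
    simpa using h3
  rcases Int.even_or_odd' k with ⟨j, hj | hj⟩
  · apply ha0 ((σ ^ j) e)
    rw [hz, h, hj, ← Equiv.Perm.mul_apply, ← zpow_add]
    congr 2
    ring
  · have h4 : α ((σ ^ (j + 1)) e) = (σ ^ j) e := by
      rw [hz, h, hj, ← Equiv.Perm.mul_apply, ← zpow_add]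
      congr 2
      ring
    have h5 : (σ ^ (j + 1)) e = β (α ((σ ^ j) e)) := by
      rw [add_comm, zpow_add, zpow_one, Equiv.Perm.mul_apply]
      rfl
    apply hb0 (α ((σ ^ j) e))
    rw [← h5]
    have h6 := congrArg α h4
    rw [← Equiv.Perm.mul_apply, ha] at h6
    simpa using h6

theorem Match_inv {E : Type} (α β : E → E) (ha : ∀ e, α (α e) = e) (hb : ∀ e, β (β e) = e) (ha0 : ∀ e, α e ≠ e) (hb0 : ∀ e, β e ≠ e) :
    ∃ b : E → Bool, (∀ e, b (α e) ≠ b e) ∧ (∀ e, b (β e) ≠ b e) := by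
  classical
  let a' : Equiv.Perm E := ⟨α, α, ha, ha⟩
  let b' : Equiv.Perm E := ⟨β, β, hb, hb⟩
  have ha' : a' * a' = 1 := by
    ext e
    exact ha e
  have hb' : b' * b' = 1 := by
    ext e
    exact hb e
  have key := Match_orbit a' b' ha' hb' ha0 hb0
  let O : E → Set E := fun e => {f | ∃ k : ℤ, f = ((b' * a') ^ k) e}
  have hO : ∀ e (j : ℤ), O (((b' * a') ^ j) e) = O e := by
    intro e j
    ext f
    constructor
    · rintro ⟨k, rfl⟩
      refine ⟨k + j, ?_⟩
      rw [zpow_add, Equiv.Perm.mul_apply]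
    · rintro ⟨k, rfl⟩
      refine ⟨k - j, ?_⟩
      rw [← Equiv.Perm.mul_apply, ← zpow_add]
      congr 2
      ring
  have hne : ∀ e, O e ≠ O (α e) := by
    intro e he
    have h1 : α e ∈ O (α e) := ⟨0, by simp⟩
    rw [← he] at h1
    obtain ⟨k, hk⟩ := h1
    exact key k e hk
  have hβ : ∀ e, O (β e) = O (α e) := by
    intro e
    have h1 := hO (α e) 1
    rw [zpow_one, Equiv.Perm.mul_apply] at h1
    have h2 : b' (a' (α e)) = β e := by
      show β (α (α e)) = β e
      rw [ha]
    rw [h2] at h1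
    exact h1
  have hαβ : ∀ e, O (α (β e)) = O e := by
    intro e
    have h1 := hβ (β e)
    rw [hb] at h1
    exact h1.symm
  have hord : ∀ s t : Set E, s ≠ t → (decide (WellOrderingRel s t) ≠ decide (WellOrderingRel t s)) := by
    intro s t hst h
    have h1 : WellOrderingRel s t ↔ WellOrderingRel t s := by simpa using h
    rcases trichotomous_of WellOrderingRel s t with h2 | h2 | h2
    · exact asymm_of WellOrderingRel h2 (h1.1 h2)
    · exact hst h2
    · exact asymm_of WellOrderingRel h2 (h1.2 h2)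
  refine ⟨fun e => decide (WellOrderingRel (O e) (O (α e))), fun e => ?_, fun e => ?_⟩
  · show decide (WellOrderingRel (O (α e)) (O (α (α e)))) ≠ _
    rw [ha]
    exact hord _ _ (hne e).symm
  · show decide (WellOrderingRel (O (β e)) (O (α (β e)))) ≠ _
    rw [hαβ, hβ]
    exact hord _ _ (hne e).symm

/-- A partial matching is completed on `E × Bool`. -/
theorem Match_ext {E : Type} (A : E → E → Prop) (hAs : ∀ e e', A e e' → A e' e) (hAi : ∀ e, ¬ A e e)
    (hAu : ∀ e e' e'', A e e' → A e e'' → e' = e'') :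
    ∃ α : E × Bool → E × Bool, (∀ z, α (α z) = z) ∧ (∀ z, α z ≠ z) ∧ (∀ e e', A e e' → α (e, false) = (e', false)) := by
  classical
  let α : E × Bool → E × Bool := fun z => if h : ∃ e', A z.1 e' then (h.choose, z.2) else (z.1, !z.2)
  have h1 : ∀ e e' i, A e e' → α (e, i) = (e', i) := by
    intro e e' i he
    have hex : ∃ e', A e e' := ⟨e', he⟩
    show (if h : ∃ e', A e e' then (h.choose, i) else (e, !i)) = (e', i)
    rw [dif_pos hex, hAu e _ _ hex.choose_spec he]
  have h2 : ∀ e i, (¬ ∃ e', A e e') → α (e, i) = (e, !i) := by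
    intro e i he
    show (if h : ∃ e', A e e' then (h.choose, i) else (e, !i)) = (e, !i)
    rw [dif_neg he]
  refine ⟨α, ?_, ?_, fun e e' he => h1 e e' false he⟩
  · rintro ⟨e, i⟩
    by_cases h : ∃ e', A e e'
    · obtain ⟨e', he'⟩ := h
      rw [h1 e e' i he', h1 e' e i (hAs _ _ he')]
    · rw [h2 e i h, h2 e (!i) h, Bool.not_not]
  · rintro ⟨e, i⟩
    by_cases h : ∃ e', A e e'
    · obtain ⟨e', he'⟩ := h
      rw [h1 e e' i he']
      intro h3
      rw [Prod.mk.injEq] at h3
      exact hAi e (h3.1 ▸ he')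
    · rw [h2 e i h]
      intro h3
      rw [Prod.mk.injEq] at h3
      cases i <;> simp at h3

theorem two_match {E : Type} [Finite E] (A B : E → E → Prop) (hAs : ∀ e e', A e e' → A e' e) (hAi : ∀ e, ¬ A e e)
    (hAu : ∀ e e' e'', A e e' → A e e'' → e' = e'') (hBs : ∀ e e', B e e' → B e' e) (hBi : ∀ e, ¬ B e e)
    (hBu : ∀ e e' e'', B e e' → B e e'' → e' = e'') :
    ∃ b : E → Bool, (∀ e e', A e e' → b e ≠ b e') ∧ (∀ e e', B e e' → b e ≠ b e') := by
  obtain ⟨α, hα1, hα2, hα3⟩ := Match_ext A hAs hAi hAu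
  obtain ⟨β, hβ1, hβ2, hβ3⟩ := Match_ext B hBs hBi hBu
  obtain ⟨b, h1, h2⟩ := Match_inv α β hα1 hβ1 hα2 hβ2
  refine ⟨fun e => b (e, false), fun e e' he => ?_, fun e e' he => ?_⟩
  · have := h1 (e, false)
    rw [hα3 e e' he] at this
    exact this.symm
  · have := h2 (e, false)
    rw [hβ3 e e' he] at this
    exact this.symm

end Pool.Agent.H70.TF
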