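import Pool.Agent.H70.TF.Defs
import Pool.Agent.H70.TF.Match

/-!
# A skeleton gives a good colouring with the colours 1, ..., 6

`E = V × V`, edges are the pairs `(x, y)`, `x` in `X`, adjacent.  `A (x, y) (x', y')`: `y = y'`, `x ≠ x'`, `P x y = P x' y` (unique by `y1`).
`B (x, y) (x', y')`: either `x = x'`, `y ≠ y'`, both major (`P ≠ c`) (unique by `x2`), or `y = y'`, `x ≠ x'`, both minor (`P = c`), `P x y ≠ P x' y` and `y` has at most
two minor edges (unique).  `two_match` gives `b`.  If `y₀` has three minor edges, their classes are not all equal (`y1`): one of them, `e`, is alone in its class.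
Replace `b` by `! b` if necessary so that `b e = false`.  Colour of `(x, y)`: if `P x y`: `4` if `b = false`, otherwise `1` if `c x`, `5` if not; if not `P x y`: `3` if
`b = false`, otherwise `2` if `c x`, `6` if not.  At `x`: two majors have different `b`; `c x = true`: minor in `{1, 4}`, majors in `{2, 3}`; `c x = false`:
minor in `{3, 6}`, majors in `{4, 5}`.  At `y`: the same class: different `b`, `4` and `1` or `5`, `3` and `2` or `6`.  Different classes: `{1, 4, 5}` against `{2, 3, 6}`, only `1`, `6` is bad; these are two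
minor edges with `b = true` in different classes: excluded by `B` or, at an exceptional `y₀`, by `b e = false`.
-/

set_option autoImplicit false

noncomputable section

namespace Pool.Agent.H70.TF

open Finset

variable {V : Type} [Fintype V]

/-- The colour. -/
def Col_cv (p b cc : Bool) : ℤ :=
  if p then (if b then (if cc then 1 else 5) else 4) else (if b then (if cc then 2 else 6) else 3)

theorem Col_key1 : ∀ p₁ p₂ cc b₁ b₂ : Bool, (p₁ ≠ cc → p₂ ≠ cc → b₁ ≠ b₂) → ¬ (p₁ = cc ∧ p₂ = cc) →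
    Col_cv p₁ b₁ cc ≠ Col_cv p₂ b₂ cc ∧ Col_cv p₁ b₁ cc < Col_cv p₂ b₂ cc + 3 := by
  decide

theorem Col_key2 : ∀ p₁ p₂ b₁ b₂ c₁ c₂ : Bool, (p₁ = p₂ → b₁ ≠ b₂) →
    ¬ (p₁ = c₁ ∧ p₂ = c₂ ∧ p₁ ≠ p₂ ∧ b₁ = true ∧ b₂ = true) →
    Col_cv p₁ b₁ c₁ ≠ Col_cv p₂ b₂ c₂ ∧ Col_cv p₁ b₁ c₁ < Col_cv p₂ b₂ c₂ + 4 := by
  decide

theorem Col_key3 : ∀ p b cc : Bool, 1 ≤ Col_cv p b cc ∧ Col_cv p b cc ≤ 6 := by
  decide

theorem Col_uniq {W : Type} {s : Finset W} (h : s.card ≤ 2) {a b b' : W} (ha : a ∈ s) (hb : b ∈ s) (hb' : b' ∈ s)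
    (hab : a ≠ b) (hab' : a ≠ b') : b = b' := by
  by_contra hne
  have : 2 < s.card := Finset.two_lt_card.2 ⟨a, ha, b, hb, b', hb', hab, hab', hne⟩
  omega

/-- The bits. -/
theorem Col_bits (G : SimpleGraph V) (X : Set V) (hb : Bip G X) (P : V → V → Bool) (c : V → Bool) (y₀ : V)
    (hs : Skel G X P c y₀) : ∃ b : V → V → Bool,
      (∀ x x' y, x ≠ x' → x ∈ X → x' ∈ X → G.Adj x y → G.Adj x' y → P x y = P x' y → b x y ≠ b x' y) ∧
      (∀ x y y', y ≠ y' → x ∈ X → G.Adj x y → G.Adj x y' → P x y ≠ c x → P x y' ≠ c x → b x y ≠ b x y') ∧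
      (∀ x x' y, x ≠ x' → x ∈ X → x' ∈ X → G.Adj x y → G.Adj x' y → P x y = c x → P x' y = c x' →
        P x y ≠ P x' y → ¬ (b x y = true ∧ b x' y = true)) := by
  classical
  set mn : V → Finset V := fun y => (nb G y).filter (fun x => P x y = c x) with hmn
  set A : V × V → V × V → Prop := fun e e' => e.2 = e'.2 ∧ e.1 ≠ e'.1 ∧ e.1 ∈ X ∧ e'.1 ∈ X ∧ G.Adj e.1 e.2 ∧
    G.Adj e'.1 e'.2 ∧ P e.1 e.2 = P e'.1 e'.2 with hA
  set B : V × V → V × V → Prop := fun e e' =>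
    (e.1 = e'.1 ∧ e.2 ≠ e'.2 ∧ e.1 ∈ X ∧ G.Adj e.1 e.2 ∧ G.Adj e'.1 e'.2 ∧ P e.1 e.2 ≠ c e.1 ∧ P e'.1 e'.2 ≠ c e'.1) ∨
    (e.2 = e'.2 ∧ e.1 ≠ e'.1 ∧ e.1 ∈ X ∧ e'.1 ∈ X ∧ G.Adj e.1 e.2 ∧ G.Adj e'.1 e'.2 ∧ P e.1 e.2 = c e.1 ∧
      P e'.1 e'.2 = c e'.1 ∧ P e.1 e.2 ≠ P e'.1 e'.2 ∧ (mn e.2).card ≤ 2) with hB
  have hyX : ∀ {x y : V}, x ∈ X → G.Adj x y → y ∉ X := fun {x y} hx hxy => (hb.bip x y hxy).1 hx
  obtain ⟨b, hbA, hbB⟩ := two_match A B
    (by
      rintro ⟨x, y⟩ ⟨x', y'⟩ ⟨h1, h2, h3, h4, h5, h6, h7⟩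
      exact ⟨h1.symm, h2.symm, h4, h3, h6, h5, h7.symm⟩)
    (by
      rintro ⟨x, y⟩ ⟨h1, h2, _⟩
      exact h2 rfl)
    (by
      rintro ⟨x, y⟩ ⟨x', y'⟩ ⟨x'', y''⟩ ⟨h1, h2, h3, h4, h5, h6, h7⟩ ⟨g1, g2, g3, g4, g5, g6, g7⟩
      dsimp only at h1 h2 h3 h4 h5 h6 h7 g1 g2 g3 g4 g5 g6 g7
      subst h1
      subst g1
      have h8 := Col_uniq (hs.y1 y (hyX h3 h5) (P x y)) (a := x) (b := x') (b' := x'')
        (by simp [mem_nb, h5.symm]) (by simp [mem_nb, h6.symm, h7]) (by simp [mem_nb, g6.symm, g7]) h2 g2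
      rw [h8])
    (by
      rintro ⟨x, y⟩ ⟨x', y'⟩ (⟨h1, h2, h3, h4, h5, h6, h7⟩ | ⟨h1, h2, h3, h4, h5, h6, h7, h8, h9, h10⟩)
      · exact Or.inl ⟨h1.symm, h2.symm, h1 ▸ h3, h5, h4, h7, h6⟩
      · exact Or.inr ⟨h1.symm, h2.symm, h4, h3, h6, h5, h8, h7, h9.symm, h1 ▸ h10⟩)
    (by
      rintro ⟨x, y⟩ (⟨h1, h2, _⟩ | ⟨h1, h2, _⟩)
      · exact h2 rfl
      · exact h2 rfl)
    (by
      rintro ⟨x, y⟩ ⟨x', y'⟩ ⟨x'', y''⟩ h g
      rcases h with ⟨h1, h2, h3, h4, h5, h6, h7⟩ | ⟨h1, h2, h3, h4, h5, h6, h7, h8, h9, h10⟩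
      · rcases g with ⟨g1, g2, g3, g4, g5, g6, g7⟩ | ⟨g1, g2, g3, g4, g5, g6, g7, g8, g9, g10⟩
        · dsimp only at h1 h2 h3 h4 h5 h6 h7 g1 g2 g3 g4 g5 g6 g7
          subst h1
          subst g1
          have h8 := Col_uniq (hs.x2 x h3) (a := y) (b := y') (b' := y'')
            (by simp only [mem_filter, mem_nb]; exact ⟨h4, h6⟩) (by simp only [mem_filter, mem_nb]; exact ⟨h5, h7⟩)
            (by simp only [mem_filter, mem_nb]; exact ⟨g5, g7⟩) h2 g2
          rw [h8]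
        · exact absurd g7 h6
      · rcases g with ⟨g1, g2, g3, g4, g5, g6, g7⟩ | ⟨g1, g2, g3, g4, g5, g6, g7, g8, g9, g10⟩
        · exact absurd h7 g6
        · dsimp only at h1 h2 h3 h4 h5 h6 h7 h8 h9 h10 g1 g2 g3 g4 g5 g6 g7 g8 g9 g10
          subst h1
          subst g1
          have h11 := Col_uniq h10 (a := x) (b := x') (b' := x'')
            (by simp only [hmn, mem_filter, mem_nb]; exact ⟨h5.symm, h7⟩)
            (by simp only [hmn, mem_filter, mem_nb]; exact ⟨h6.symm, h8⟩)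
            (by simp only [hmn, mem_filter, mem_nb]; exact ⟨g6.symm, g8⟩) h2 g2
          rw [h11])
  -- the exceptional vertex
  have hfin : ∃ b' : V × V → Bool, (∀ e e', A e e' → b' e ≠ b' e') ∧ (∀ e e', B e e' → b' e ≠ b' e') ∧
      (y₀ ∉ X → 2 < (mn y₀).card → ∀ x x', x ∈ mn y₀ → x' ∈ mn y₀ → P x y₀ ≠ P x' y₀ →
        ¬ (b' (x, y₀) = true ∧ b' (x', y₀) = true)) := by
    by_cases hex : y₀ ∉ X ∧ 2 < (mn y₀).card
    · obtain ⟨hy, hc⟩ := hex
      have hc3 : (mn y₀).card = 3 := le_antisymm (hs.y3 y₀ hy) hc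
      -- the minor edge which is alone in its class
      have hlone : ∃ z ∈ mn y₀, ∀ x ∈ mn y₀, x ≠ z → P x y₀ ≠ P z y₀ := by
        by_contra hcon
        push Not at hcon
        obtain ⟨x₁, x₂, x₃, h12, h13, h23, hmeq⟩ := Finset.card_eq_three.1 hc3
        have m1 : x₁ ∈ mn y₀ := by rw [hmeq]; simp
        have m2 : x₂ ∈ mn y₀ := by rw [hmeq]; simp
        have m3 : x₃ ∈ mn y₀ := by rw [hmeq]; simp
        have hnot : ¬ (P x₁ y₀ = P x₂ y₀ ∧ P x₁ y₀ = P x₃ y₀) := by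
          rintro ⟨e1, e2⟩
          have h4 := Col_uniq (hs.y1 y₀ hy (P x₁ y₀)) (a := x₁) (b := x₂) (b' := x₃)
            (mem_filter.2 ⟨(mem_filter.1 m1).1, rfl⟩)
            (mem_filter.2 ⟨(mem_filter.1 m2).1, e1.symm⟩)
            (mem_filter.2 ⟨(mem_filter.1 m3).1, e2.symm⟩) h12 h13
          exact h23 h4
        have hb3 : ∀ p q r : Bool, ¬ (p = q ∧ p = r) → (p ≠ q ∧ p ≠ r) ∨ (q ≠ p ∧ q ≠ r) ∨ (r ≠ p ∧ r ≠ q) := by decide
        rcases hb3 _ _ _ hnot with ⟨e1, e2⟩ | ⟨e1, e2⟩ | ⟨e1, e2⟩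
        · obtain ⟨x, hx, hxne, hxe⟩ := hcon x₁ m1
          rw [hmeq] at hx
          simp only [mem_insert, mem_singleton] at hx
          rcases hx with rfl | rfl | rfl
          · exact hxne rfl
          · exact e1 hxe.symm
          · exact e2 hxe.symm
        · obtain ⟨x, hx, hxne, hxe⟩ := hcon x₂ m2
          rw [hmeq] at hx
          simp only [mem_insert, mem_singleton] at hx
          rcases hx with rfl | rfl | rfl
          · exact e1 hxe.symm
          · exact hxne rfl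
          · exact e2 hxe.symm
        · obtain ⟨x, hx, hxne, hxe⟩ := hcon x₃ m3
          rw [hmeq] at hx
          simp only [mem_insert, mem_singleton] at hx
          rcases hx with rfl | rfl | rfl
          · exact e1 hxe.symm
          · exact e2 hxe.symm
          · exact hxne rfl
      obtain ⟨z, hz, hzl⟩ := hlone
      have hgoal : ∀ b' : V × V → Bool, b' (z, y₀) = false → ∀ x x', x ∈ mn y₀ → x' ∈ mn y₀ → P x y₀ ≠ P x' y₀ →
          ¬ (b' (x, y₀) = true ∧ b' (x', y₀) = true) := by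
        intro b' hbz x x' hx hx' hne hcon
        by_cases h1 : x = z
        · rw [h1, hbz] at hcon
          exact Bool.false_ne_true hcon.1
        · by_cases h2 : x' = z
          · rw [h2, hbz] at hcon
            exact Bool.false_ne_true hcon.2
          · have h3 := hzl x hx h1
            have h4 := hzl x' hx' h2
            have hb3 : ∀ p q r : Bool, p ≠ r → q ≠ r → p = q := by decide
            exact hne (hb3 _ _ _ h3 h4)
      rcases hbz : b (z, y₀) with _ | _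
      · exact ⟨b, hbA, hbB, fun _ _ => hgoal b hbz⟩
      · refine ⟨fun e => !(b e), fun e e' h => ?_, fun e e' h => ?_, fun _ _ => hgoal (fun e => !(b e)) (by
          show (!(b (z, y₀))) = false
          rw [hbz]
          rfl)⟩
        · intro he
          exact hbA e e' h (by simpa using he)
        · intro he
          exact hbB e e' h (by simpa using he)
    · exact ⟨b, hbA, hbB, fun h1 h2 => absurd ⟨h1, h2⟩ hex⟩
  obtain ⟨b', hA', hB', hE'⟩ := hfin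
  refine ⟨fun x y => b' (x, y), ?_, ?_, ?_⟩
  · intro x x' y hne hx hx' hxy hx'y hP
    exact hA' (x, y) (x', y) ⟨rfl, hne, hx, hx', hxy, hx'y, hP⟩
  · intro x y y' hne hx hxy hxy' hP hP'
    exact hB' (x, y) (x, y') (Or.inl ⟨rfl, hne, hx, hxy, hxy', hP, hP'⟩)
  · intro x x' y hne hx hx' hxy hx'y hm hm' hP hcon
    by_cases hc : (mn y).card ≤ 2
    · have h1 := hB' (x, y) (x', y) (Or.inr ⟨rfl, hne, hx, hx', hxy, hx'y, hm, hm', hP, hc⟩)
      exact h1 (hcon.1.trans hcon.2.symm)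
    · have hy : y ∉ X := hyX hx hxy
      have hy0 : y = y₀ := by
        by_contra h
        exact hc (hs.y2 y hy h)
      subst hy0
      exact hE' hy (by omega) x x' (by simp only [hmn, mem_filter, mem_nb]; exact ⟨hxy.symm, hm⟩)
        (by simp only [hmn, mem_filter, mem_nb]; exact ⟨hx'y.symm, hm'⟩) hP hcon

theorem good_of_skel (G : SimpleGraph V) (X : Set V) (hb : Bip G X) (P : V → V → Bool) (c : V → Bool) (y₀ : V)
    (hs : Skel G X P c y₀) : ∃ κ : V → V → ℤ, Good G X κ ∧ ∀ v w, G.Adj v w → 1 ≤ κ v w ∧ κ v w ≤ 6 := by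
  classical
  obtain ⟨b, h1, h2, h3⟩ := Col_bits G X hb P c y₀ hs
  refine ⟨fun v w => if v ∈ X then Col_cv (P v w) (b v w) (c v) else Col_cv (P w v) (b w v) (c w), ⟨?_, ?_, ?_⟩, ?_⟩
  · intro v w hvw
    by_cases hv : v ∈ X
    · have hw : w ∉ X := (hb.bip v w hvw).1 hv
      simp only [hv, hw, if_true, if_false]
    · have hw : w ∈ X := (hb.bip w v hvw.symm).2 hv
      simp only [hv, hw, if_true, if_false]
  · intro v hv w w' hw hw' hne
    simp only [hv, if_true]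
    refine Col_key1 _ _ _ _ _ (fun e1 e2 => h2 v w w' hne hv hw hw' e1 e2) ?_
    rintro ⟨e1, e2⟩
    have h4 := hs.x1 v hv
    rw [Finset.card_le_one] at h4
    exact hne (h4 w (by simp only [mem_filter, mem_nb]; exact ⟨hw, e1⟩) w' (by simp only [mem_filter, mem_nb]; exact ⟨hw', e2⟩))
  · intro v hv w w' hw hw' hne
    have hwX : w ∈ X := (hb.bip w v hw.symm).2 hv
    have hwX' : w' ∈ X := (hb.bip w' v hw'.symm).2 hv
    simp only [hv, if_false]
    refine Col_key2 _ _ _ _ _ _ (fun e => h1 w w' v hne hwX hwX' hw.symm hw'.symm e) ?_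
    rintro ⟨e1, e2, e3, e4, e5⟩
    exact h3 w w' v hne hwX hwX' hw.symm hw'.symm e1 e2 e3 ⟨e4, e5⟩
  · intro v w _
    dsimp only
    split_ifs
    · exact Col_key3 _ _ _
    · exact Col_key3 _ _ _

end Pool.Agent.H70.TF
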