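import Mathlib

/-!
# The degree pair (3,4): definitions

`nb H v`: the neighbours; `bd H S`: the pairs `(a, b)`, `a` in `S`, `b` not in `S`, adjacent.
`Config H A k`, `Sol H A c p`: a set `A` of vertices of degree at most 3 with exactly `k` boundary edges such that all nonempty
subsets of `A` have at least two boundary edges; a colouring `c` and a pick `p`: every vertex of `A` picks one of its edges, an edge
inside `A` is monochromatic iff it is picked by exactly one end, bichromatic iff it is picked by no end.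
`Bip G X`: bipartite, degrees at most 3 on `X` and at most 4 off `X`.  `E2`: two-edge-connected, apart from isolated vertices.
`spl G τ`: every vertex `v` is replaced by `(v, false)`, `(v, true)`, the edge `v w` is attached to `(v, τ v w)`.
`Skel`: classes `P x y` of the edges (`x` in `X`), labels `c x`; an edge is minor at `x` if `P x y = c x`.
`Good`: integer edge colours, at every vertex different and of span less than 3 on `X`, less than 4 off `X`.
-/

set_option autoImplicit false

noncomputable section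

namespace Pool.Agent.H70.TF

open Finset

variable {V : Type} [Fintype V]

open Classical in
/-- The neighbours of `v`. -/
def nb (H : SimpleGraph V) (v : V) : Finset V := univ.filter (fun w => H.Adj v w)

open Classical in
/-- The boundary pairs of `S`. -/
def bd (H : SimpleGraph V) (S : Finset V) : Finset (V × V) :=
  univ.filter (fun q => q.1 ∈ S ∧ q.2 ∉ S ∧ H.Adj q.1 q.2)

open Classical in
/-- Twice the number of edges. -/
def sz (H : SimpleGraph V) : ℕ := (univ.filter (fun q : V × V => H.Adj q.1 q.2)).card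

theorem mem_nb {H : SimpleGraph V} {v w : V} : w ∈ nb H v ↔ H.Adj v w := by
  simp [nb]

theorem mem_bd {H : SimpleGraph V} {S : Finset V} {q : V × V} :
    q ∈ bd H S ↔ q.1 ∈ S ∧ q.2 ∉ S ∧ H.Adj q.1 q.2 := by
  simp [bd]

/-- The configurations of the induction. -/
structure Config (H : SimpleGraph V) (A : Finset V) (k : ℕ) : Prop where
  deg : ∀ v ∈ A, (nb H v).card ≤ 3
  two : ∀ W ⊆ A, W.Nonempty → 2 ≤ (bd H W).card
  bdA : (bd H A).card = k

/-- The solutions. -/
structure Sol (H : SimpleGraph V) (A : Finset V) (c : V → Bool) (p : V → V) : Prop where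
  adj : ∀ v ∈ A, H.Adj v (p v)
  mono : ∀ u ∈ A, ∀ v ∈ A, H.Adj u v → (c u = c v ↔ (p u = v ∨ p v = u))
  once : ∀ u ∈ A, ∀ v ∈ A, H.Adj u v → ¬ (p u = v ∧ p v = u)

open Classical in
/-- `c v` if `v` picks the edge `v w`, otherwise the other colour. -/
def kap (c : V → Bool) (p : V → V) (v w : V) : Bool := if p v = w then c v else !(c v)

/-- Bipartite, degrees at most 3 on `X` and at most 4 off `X`. -/
structure Bip (G : SimpleGraph V) (X : Set V) : Prop where
  bip : ∀ u v, G.Adj u v → (u ∈ X ↔ v ∉ X)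
  dx : ∀ v ∈ X, (nb G v).card ≤ 3
  dy : ∀ v, v ∉ X → (nb G v).card ≤ 4

/-- Two-edge-connected apart from isolated vertices. -/
def E2 (H : SimpleGraph V) : Prop :=
  ∀ S : Finset V, (∃ u ∈ S, ∃ w, H.Adj u w) → (∃ v, v ∉ S ∧ ∃ w, H.Adj v w) → 2 ≤ (bd H S).card

/-- Every vertex is split into two vertices. -/
def spl (G : SimpleGraph V) (τ : V → V → Bool) : SimpleGraph (V × Bool) where
  Adj a b := G.Adj a.1 b.1 ∧ τ a.1 b.1 = a.2 ∧ τ b.1 a.1 = b.2
  symm := ⟨fun _ _ h => ⟨h.1.symm, h.2.2, h.2.1⟩⟩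
  loopless := ⟨fun _ h => G.loopless.irrefl _ h.1⟩

/-- A good splitting: only the vertices of degree 4 off `X` are split, into two vertices of degree 2. -/
structure Spl (G : SimpleGraph V) (X : Set V) (τ : V → V → Bool) : Prop where
  tx : ∀ x ∈ X, ∀ w, τ x w = false
  ty : ∀ y, y ∉ X → (nb G y).card ≤ 3 → ∀ w, τ y w = false
  t4 : ∀ y, y ∉ X → (nb G y).card = 4 → ∀ i : Bool, ((nb G y).filter (fun w => τ y w = i)).card = 2
  e2 : E2 (spl G τ)

/-- Skeletons. -/
structure Skel (G : SimpleGraph V) (X : Set V) (P : V → V → Bool) (c : V → Bool) (y₀ : V) : Prop where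
  x1 : ∀ x ∈ X, ((nb G x).filter (fun y => P x y = c x)).card ≤ 1
  x2 : ∀ x ∈ X, ((nb G x).filter (fun y => P x y ≠ c x)).card ≤ 2
  y1 : ∀ y, y ∉ X → ∀ b : Bool, ((nb G y).filter (fun x => P x y = b)).card ≤ 2
  y2 : ∀ y, y ∉ X → y ≠ y₀ → ((nb G y).filter (fun x => P x y = c x)).card ≤ 2
  y3 : ∀ y, y ∉ X → ((nb G y).filter (fun x => P x y = c x)).card ≤ 3

/-- Good colourings. -/
structure Good (G : SimpleGraph V) (X : Set V) (κ : V → V → ℤ) : Prop where
  symm : ∀ v w, G.Adj v w → κ v w = κ w v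
  gx : ∀ v ∈ X, ∀ w w', G.Adj v w → G.Adj v w' → w ≠ w' → κ v w ≠ κ v w' ∧ κ v w < κ v w' + 3
  gy : ∀ v, v ∉ X → ∀ w w', G.Adj v w → G.Adj v w' → w ≠ w' → κ v w ≠ κ v w' ∧ κ v w < κ v w' + 4

end Pool.Agent.H70.TF
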