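import Pool.Agent.H70.TF.Outer

/-!
# From good colourings to consecutive colourings
-/

set_option autoImplicit false

noncomputable section

namespace Pool.Agent.H70.TF

open Finset

theorem Fin_interval {W : Type} (s : Finset W) (f : W → ℤ) (n : ℕ) (hn : 0 < n) (hc : s.card = n)
    (hi : ∀ w ∈ s, ∀ w' ∈ s, w ≠ w' → f w ≠ f w' ∧ f w < f w' + n) :
    ∀ w ∈ s, ∀ w' ∈ s, ∀ k : ℤ, f w ≤ k → k ≤ f w' → ∃ u ∈ s, f u = k := by
  classical
  have hne : s.Nonempty := by
    rw [← Finset.card_pos, hc]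
    exact hn
  obtain ⟨m, hm, hmin⟩ := Finset.exists_min_image s f hne
  have hsub : s.image f ⊆ Finset.Icc (f m) (f m + n - 1) := by
    intro t ht
    obtain ⟨w, hw, rfl⟩ := Finset.mem_image.1 ht
    rw [Finset.mem_Icc]
    refine ⟨hmin w hw, ?_⟩
    by_cases hwm : w = m
    · rw [hwm]
      have : (1 : ℤ) ≤ n := by exact_mod_cast hn
      linarith
    · have := (hi w hw m hm hwm).2
      linarith
  have hcard : (s.image f).card = n := by
    rw [Finset.card_image_of_injOn, hc]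
    intro w hw w' hw' hww
    by_contra hne'
    exact (hi w hw w' hw' hne').1 hww
  have heq : s.image f = Finset.Icc (f m) (f m + n - 1) := by
    refine Finset.eq_of_subset_of_card_le hsub ?_
    rw [hcard, Int.card_Icc]
    have : f m + n - 1 + 1 - f m = (n : ℤ) := by ring
    rw [this, Int.toNat_natCast]
  intro w hw w' hw' k hk hk'
  have hkm : k ∈ s.image f := by
    rw [heq, Finset.mem_Icc]
    have h1 : f w' ∈ s.image f := Finset.mem_image_of_mem f hw'
    rw [heq, Finset.mem_Icc] at h1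
    exact ⟨(hmin w hw).trans hk, hk'.trans h1.2⟩
  obtain ⟨u, hu, huk⟩ := Finset.mem_image.1 hkm
  exact ⟨u, hu, huk⟩

variable {V : Type} [Fintype V]

theorem Fin_nb (G : SimpleGraph V) (v : V) : (nb G v).card = (G.neighborSet v).ncard := by
  classical
  rw [← Set.ncard_coe_finset]
  congr 1
  ext w
  simp [mem_nb]

theorem Fin_bip {G : SimpleGraph V} {X : Set V} (h1 : ∀ u v : V, G.Adj u v → (u ∈ X ↔ v ∉ X))
    (h2 : ∀ v : V, v ∈ X → (G.neighborSet v).ncard ≤ 3) (h3 : ∀ v : V, v ∉ X → (G.neighborSet v).ncard ≤ 4) :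
    Bip G X :=
  ⟨h1, fun v hv => by rw [Fin_nb]; exact h2 v hv, fun v hv => by rw [Fin_nb]; exact h3 v hv⟩

/-- A cut with exactly one edge is a bridge. -/
theorem Fin_bridge {G : SimpleGraph V} (h : ∀ e ∈ G.edgeSet, ¬ G.IsBridge e) (S : Finset V) : (bd G S).card ≠ 1 := by
  classical
  intro hc
  obtain ⟨⟨u, v⟩, he⟩ := Finset.card_eq_one.1 hc
  have hm : (u, v) ∈ bd G S := by rw [he]; exact Finset.mem_singleton_self _
  rw [mem_bd] at hm
  obtain ⟨hu, hv, huv⟩ := hm
  dsimp only at hu hv huv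
  apply h s(u, v) huv
  rw [SimpleGraph.isBridge_iff]
  intro hr
  obtain ⟨w⟩ := hr
  have key : ∀ (a b : V) (q : (G.deleteEdges {s(u, v)}).Walk a b), a ∈ S → b ∈ S := by
    intro a b q
    induction q with
    | nil => exact fun ha => ha
    | @cons x y z hxy _ ih =>
      intro hx
      apply ih
      by_contra hy
      rw [SimpleGraph.deleteEdges_adj] at hxy
      have h1 : (x, y) ∈ bd G S := by rw [mem_bd]; exact ⟨hx, hy, hxy.1⟩
      rw [he, Finset.mem_singleton, Prod.mk.injEq] at h1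
      obtain ⟨rfl, rfl⟩ := h1
      exact hxy.2 (Set.mem_singleton _)
  exact hv (key u v w hu)

/-- A positive good colouring gives a consecutive colouring. -/
theorem Fin_conv {G : SimpleGraph V} {X : Set V} (h2 : ∀ v : V, v ∈ X → (G.neighborSet v).ncard = 3)
    (h3 : ∀ v : V, v ∉ X → (G.neighborSet v).ncard = 4) {κ : V → V → ℤ} (hg : Good G X κ)
    (hp : ∀ v w, G.Adj v w → 1 ≤ κ v w) :
    (∀ v w : V, G.Adj v w → (κ v w).toNat = (κ w v).toNat) ∧
    (∀ v w : V, G.Adj v w → 0 < (κ v w).toNat) ∧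
    (∀ v w w' : V, G.Adj v w → G.Adj v w' → (κ v w).toNat = (κ v w').toNat → w = w') ∧
    (∀ v w w' : V, ∀ k : ℕ, G.Adj v w → G.Adj v w' → (κ v w).toNat ≤ k → k ≤ (κ v w').toNat →
      ∃ u : V, G.Adj v u ∧ (κ v u).toNat = k) := by
  have hdist : ∀ v w w' : V, G.Adj v w → G.Adj v w' → w ≠ w' → κ v w ≠ κ v w' := by
    intro v w w' hw hw' hne
    by_cases hv : v ∈ X
    · exact (hg.gx v hv w w' hw hw' hne).1
    · exact (hg.gy v hv w w' hw hw' hne).1
  refine ⟨fun v w hvw => by rw [hg.symm v w hvw], fun v w hvw => ?_, fun v w w' hw hw' he => ?_, ?_⟩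
  · have := hp v w hvw
    omega
  · by_contra hne
    have h4 := hdist v w w' hw hw' hne
    have h5 := hp v w hw
    have h6 := hp v w' hw'
    omega
  · intro v w w' k hw hw' hk hk'
    have h5 := hp v w hw
    have h6 := hp v w' hw'
    have hmain : ∃ u ∈ nb G v, κ v u = (k : ℤ) := by
      by_cases hv : v ∈ X
      · refine Fin_interval (nb G v) (κ v) 3 (by norm_num) (by rw [Fin_nb]; exact h2 v hv) ?_ w (mem_nb.2 hw) w' (mem_nb.2 hw')
          k (by omega) (by omega)
        intro a ha b hb hab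
        exact_mod_cast hg.gx v hv a b (mem_nb.1 ha) (mem_nb.1 hb) hab
      · refine Fin_interval (nb G v) (κ v) 4 (by norm_num) (by rw [Fin_nb]; exact h3 v hv) ?_ w (mem_nb.2 hw) w' (mem_nb.2 hw')
          k (by omega) (by omega)
        intro a ha b hb hab
        exact_mod_cast hg.gy v hv a b (mem_nb.1 ha) (mem_nb.1 hb) hab
    obtain ⟨u, hu, huk⟩ := hmain
    refine ⟨u, mem_nb.1 hu, ?_⟩
    rw [huk]
    exact Int.toNat_natCast k

/-- Good colourings can be shifted to positive ones. -/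
theorem Fin_shift {G : SimpleGraph V} {X : Set V} {κ : V → V → ℤ} (hg : Good G X κ) :
    ∃ κ' : V → V → ℤ, Good G X κ' ∧ ∀ v w, G.Adj v w → 1 ≤ κ' v w := by
  obtain ⟨N, hN⟩ := (Set.finite_range (fun q : V × V => κ q.1 q.2)).bddBelow
  refine ⟨fun v w => κ v w - N + 1, ⟨fun v w hvw => ?_, fun v hv w w' hw hw' hne => ?_, fun v hv w w' hw hw' hne => ?_⟩,
    fun v w _ => ?_⟩
  · rw [hg.symm v w hvw]
  · obtain ⟨h1, h2⟩ := hg.gx v hv w w' hw hw' hne
    exact ⟨fun h => h1 (by linarith), by linarith⟩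
  · obtain ⟨h1, h2⟩ := hg.gy v hv w w' hw hw' hne
    exact ⟨fun h => h1 (by linarith), by linarith⟩
  · have := hN (Set.mem_range_self (v, w))
    dsimp only at this
    linarith

end Pool.Agent.H70.TF
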