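import Pool.Agent.H70.TF.SkelE
import Pool.Agent.H70.TF.Col

/-!
# Good colourings exist

`good_all`: induction over `sz G`.  No edge: trivial.  If some `S` has no boundary pair and there are edges inside `S` and inside the complement: colour the
two parts (`G` restricted to the edges inside `S`, inside the complement) and put them together.  If some `S` has exactly one boundary pair `(u, v)`: if
the complement of `S` contains no edge, `v` is a leaf: remove the edge `u v`, colour, the other (at most 2, at most 3) edges at `u` have colours in an interval of length 3 (4), choose a free colour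
of such an interval for `u v`; the same if `S` contains no edge (`u` is a leaf).  Otherwise colour `G₁` = the edges with an end in `S`, `G₂` = the edges with an end outside `S` (both
smaller, common edge `u v`), add a constant to the second colouring so that they agree on `u v`; every vertex of `S` has all its edges in `G₁`, every other vertex has all
its edges in `G₂`.  Otherwise `E2 G`: `skel_exists`, `good_of_skel`.

`good_six`: if no `S` has exactly one boundary pair, the colours can be chosen in `1, ..., 6` (same induction without the second case; the subgraphs have the same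
property).
-/

set_option autoImplicit false

noncomputable section

namespace Pool.Agent.H70.TF

open Finset

variable {V : Type} [Fintype V]

/-- The subgraph given by a symmetric relation. -/
def Outer_sub (G : SimpleGraph V) (R : V → V → Prop) (hR : ∀ v w, R v w → R w v) : SimpleGraph V where
  Adj v w := G.Adj v w ∧ R v w
  symm := ⟨fun v w h => ⟨h.1.symm, hR v w h.2⟩⟩
  loopless := ⟨fun v h => G.loopless.irrefl v h.1⟩

theorem Outer_bip {G G' : SimpleGraph V} {X : Set V} (hb : Bip G X) (h : ∀ v w, G'.Adj v w → G.Adj v w) : Bip G' X := by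
  have hn : ∀ v, (nb G' v).card ≤ (nb G v).card := by
    intro v
    apply Finset.card_le_card
    intro w hw
    rw [mem_nb] at hw ⊢
    exact h v w hw
  exact ⟨fun u v huv => hb.bip u v (h u v huv), fun v hv => (hn v).trans (hb.dx v hv),
    fun v hv => (hn v).trans (hb.dy v hv)⟩

theorem Outer_sz {G G' : SimpleGraph V} (h : ∀ v w, G'.Adj v w → G.Adj v w) {v w : V} (hvw : G.Adj v w)
    (hn : ¬ G'.Adj v w) : sz G' < sz G := by
  classical
  unfold sz
  apply Finset.card_lt_card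
  rw [Finset.ssubset_iff_of_subset]
  · exact ⟨(v, w), by simpa using hvw, by simpa using hn⟩
  · intro q hq
    simp only [mem_filter, mem_univ, true_and] at hq ⊢
    exact h _ _ hq

/-- Two parts without a common edge. -/
theorem Outer_comb0 {G G₁ G₂ : SimpleGraph V} {X : Set V} {S : Finset V} {κ₁ κ₂ : V → V → ℤ} (hκ₁ : Good G₁ X κ₁)
    (hκ₂ : Good G₂ X κ₂) (hS : ∀ v w, G.Adj v w → (v ∈ S ↔ w ∈ S))
    (h1 : ∀ v w, v ∈ S → w ∈ S → G.Adj v w → G₁.Adj v w) (h2 : ∀ v w, v ∉ S → w ∉ S → G.Adj v w → G₂.Adj v w) :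
    ∃ κ : V → V → ℤ, Good G X κ ∧ (∀ v w, G.Adj v w → v ∈ S → κ v w = κ₁ v w) ∧
      (∀ v w, G.Adj v w → v ∉ S → κ v w = κ₂ v w) := by
  classical
  refine ⟨fun v w => if v ∈ S then κ₁ v w else κ₂ v w, ⟨?_, ?_, ?_⟩, ?_, ?_⟩
  · intro v w hvw
    by_cases hv : v ∈ S
    · have hw : w ∈ S := (hS v w hvw).mp hv
      simp only [hv, hw, if_true]
      exact hκ₁.symm v w (h1 v w hv hw hvw)
    · have hw : w ∉ S := fun h => hv ((hS v w hvw).mpr h)
      simp only [hv, hw, if_false]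
      exact hκ₂.symm v w (h2 v w hv hw hvw)
  · intro v hvX w w' hw hw' hne
    by_cases hv : v ∈ S
    · simp only [hv, if_true]
      exact hκ₁.gx v hvX w w' (h1 v w hv ((hS v w hw).mp hv) hw) (h1 v w' hv ((hS v w' hw').mp hv) hw') hne
    · simp only [hv, if_false]
      exact hκ₂.gx v hvX w w' (h2 v w hv (fun h => hv ((hS v w hw).mpr h)) hw)
        (h2 v w' hv (fun h => hv ((hS v w' hw').mpr h)) hw') hne
  · intro v hvX w w' hw hw' hne
    by_cases hv : v ∈ S
    · simp only [hv, if_true]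
      exact hκ₁.gy v hvX w w' (h1 v w hv ((hS v w hw).mp hv) hw) (h1 v w' hv ((hS v w' hw').mp hv) hw') hne
    · simp only [hv, if_false]
      exact hκ₂.gy v hvX w w' (h2 v w hv (fun h => hv ((hS v w hw).mpr h)) hw)
        (h2 v w' hv (fun h => hv ((hS v w' hw').mpr h)) hw') hne
  · intro v w _ hv
    simp only [hv, if_true]
  · intro v w _ hv
    simp only [hv, if_false]

/-- Two parts with one common edge. -/
theorem Outer_comb1 {G G₁ G₂ : SimpleGraph V} {X : Set V} {S : Finset V} {κ₁ κ₂ : V → V → ℤ} (hκ₁ : Good G₁ X κ₁)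
    (hκ₂ : Good G₂ X κ₂) {u₀ v₀ : V} (hu : u₀ ∈ S) (hv₀ : v₀ ∉ S) (huv : G.Adj u₀ v₀)
    (hS : ∀ v w, G.Adj v w → v ∈ S → w ∉ S → v = u₀ ∧ w = v₀)
    (h1 : ∀ v w, v ∈ S → G.Adj v w → G₁.Adj v w) (h2 : ∀ v w, v ∉ S → G.Adj v w → G₂.Adj v w) :
    ∃ κ : V → V → ℤ, Good G X κ := by
  classical
  have hs1 : ∀ v w, v ∈ S → G.Adj v w → κ₁ v w = κ₁ w v := fun v w hv h => hκ₁.symm v w (h1 v w hv h)
  have hs2 : ∀ v w, v ∉ S → G.Adj v w → κ₂ v w = κ₂ w v := fun v w hv h => hκ₂.symm v w (h2 v w hv h)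
  refine ⟨fun v w => if v ∈ S then κ₁ v w else κ₂ v w + (κ₁ u₀ v₀ - κ₂ u₀ v₀), ⟨?_, ?_, ?_⟩⟩
  · intro v w hvw
    by_cases hv : v ∈ S
    · by_cases hw : w ∈ S
      · simp only [hv, hw, if_true]
        exact hs1 v w hv hvw
      · simp only [hv, hw, if_true, if_false]
        obtain ⟨rfl, rfl⟩ := hS v w hvw hv hw
        have := hs2 w v hw hvw.symm
        omega
    · by_cases hw : w ∈ S
      · simp only [hv, hw, if_true, if_false]
        obtain ⟨rfl, rfl⟩ := hS w v hvw.symm hw hv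
        have := hs2 v w hv hvw
        omega
      · simp only [hv, hw, if_false]
        have := hs2 v w hv hvw
        omega
  · intro v hvX w w' hw hw' hne
    by_cases hv : v ∈ S
    · simp only [hv, if_true]
      exact hκ₁.gx v hvX w w' (h1 v w hv hw) (h1 v w' hv hw') hne
    · simp only [hv, if_false]
      have := hκ₂.gx v hvX w w' (h2 v w hv hw) (h2 v w' hv hw') hne
      refine ⟨fun h => this.1 (by omega), ?_⟩
      have := this.2
      omega
  · intro v hvX w w' hw hw' hne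
    by_cases hv : v ∈ S
    · simp only [hv, if_true]
      exact hκ₁.gy v hvX w w' (h1 v w hv hw) (h1 v w' hv hw') hne
    · simp only [hv, if_false]
      have := hκ₂.gy v hvX w w' (h2 v w hv hw) (h2 v w' hv hw') hne
      refine ⟨fun h => this.1 (by omega), ?_⟩
      have := this.2
      omega

/-- A free colour. -/
theorem Outer_free (T : Finset ℤ) (k : ℕ) (hk : T.card < k) (h : ∀ a ∈ T, ∀ b ∈ T, a < b + k) :
    ∃ z : ℤ, z ∉ T ∧ ∀ a ∈ T, a < z + k ∧ z < a + k := by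
  by_cases hT : T.Nonempty
  · obtain ⟨m, hm, hmin⟩ := Finset.exists_min_image T id hT
    simp only [id] at hmin
    have hlt : T.card < (Finset.Icc m (m + k - 1)).card := by
      rw [Int.card_Icc]
      have : (m + (k : ℤ) - 1 + 1 - m).toNat = k := by
        have : m + (k : ℤ) - 1 + 1 - m = k := by ring
        rw [this]
        simp
      rw [this]
      exact hk
    obtain ⟨z, hz, hzT⟩ := Finset.exists_mem_notMem_of_card_lt_card hlt
    rw [Finset.mem_Icc] at hz
    refine ⟨z, hzT, fun a ha => ⟨?_, ?_⟩⟩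
    · have := h a ha m hm
      omega
    · have := hmin a ha
      omega
  · rw [Finset.not_nonempty_iff_eq_empty] at hT
    subst hT
    exact ⟨0, by simp, by simp⟩

/-- A leaf. -/
theorem Outer_leaf {G G₁ : SimpleGraph V} {X : Set V} (hb : Bip G X) {κ₁ : V → V → ℤ} (hκ₁ : Good G₁ X κ₁) {u₀ v₀ : V}
    (huv : G.Adj u₀ v₀) (hleaf : ∀ w, G.Adj v₀ w → w = u₀)
    (h1 : ∀ v w, G.Adj v w → ¬ (v = u₀ ∧ w = v₀) → ¬ (v = v₀ ∧ w = u₀) → G₁.Adj v w)
    (h2 : ∀ v w, G₁.Adj v w → G.Adj v w ∧ ¬ (v = u₀ ∧ w = v₀)) :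
    ∃ κ : V → V → ℤ, Good G X κ := by
  classical
  have huv' : u₀ ≠ v₀ := huv.ne
  -- the other neighbours of `u₀`
  have hcard : (nb G₁ u₀).card < (nb G u₀).card := by
    apply Finset.card_lt_card
    rw [Finset.ssubset_iff_of_subset]
    · refine ⟨v₀, by rw [mem_nb]; exact huv, ?_⟩
      rw [mem_nb]
      exact fun h => (h2 u₀ v₀ h).2 ⟨rfl, rfl⟩
    · intro w hw
      rw [mem_nb] at hw ⊢
      exact (h2 u₀ w hw).1
  set T : Finset ℤ := (nb G₁ u₀).image (κ₁ u₀) with hT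
  have hTc : T.card ≤ (nb G₁ u₀).card := Finset.card_image_le
  have hmain : ∃ z : ℤ, (∀ w, G₁.Adj u₀ w → κ₁ u₀ w ≠ z) ∧
      (u₀ ∈ X → ∀ w, G₁.Adj u₀ w → κ₁ u₀ w < z + 3 ∧ z < κ₁ u₀ w + 3) ∧
      (u₀ ∉ X → ∀ w, G₁.Adj u₀ w → κ₁ u₀ w < z + 4 ∧ z < κ₁ u₀ w + 4) := by
    by_cases hX : u₀ ∈ X
    · have hd := hb.dx u₀ hX
      obtain ⟨z, hz, hz'⟩ := Outer_free T 3 (by omega) (by
        intro a ha b hb'
        rw [hT, mem_image] at ha hb'
        obtain ⟨w, hw, rfl⟩ := ha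
        obtain ⟨w', hw', rfl⟩ := hb'
        rw [mem_nb] at hw hw'
        by_cases hww : w = w'
        · subst hww
          push_cast
          omega
        · exact_mod_cast (hκ₁.gx u₀ hX w w' hw hw' hww).2)
      refine ⟨z, fun w hw h => hz (by rw [hT, mem_image]; exact ⟨w, by rw [mem_nb]; exact hw, h⟩), ?_,
        fun h => absurd hX h⟩
      intro _ w hw
      have := hz' (κ₁ u₀ w) (by rw [hT]; exact mem_image_of_mem _ (by rw [mem_nb]; exact hw))
      exact_mod_cast this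
    · have hd := hb.dy u₀ hX
      obtain ⟨z, hz, hz'⟩ := Outer_free T 4 (by omega) (by
        intro a ha b hb'
        rw [hT, mem_image] at ha hb'
        obtain ⟨w, hw, rfl⟩ := ha
        obtain ⟨w', hw', rfl⟩ := hb'
        rw [mem_nb] at hw hw'
        by_cases hww : w = w'
        · subst hww
          push_cast
          omega
        · exact_mod_cast (hκ₁.gy u₀ hX w w' hw hw' hww).2)
      refine ⟨z, fun w hw h => hz (by rw [hT, mem_image]; exact ⟨w, by rw [mem_nb]; exact hw, h⟩),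
        fun h => absurd h hX, ?_⟩
      intro _ w hw
      have := hz' (κ₁ u₀ w) (by rw [hT]; exact mem_image_of_mem _ (by rw [mem_nb]; exact hw))
      exact_mod_cast this
  obtain ⟨z, hz, hzx, hzy⟩ := hmain
  set κ : V → V → ℤ := fun v w => if (v = u₀ ∧ w = v₀) ∨ (v = v₀ ∧ w = u₀) then z else κ₁ v w with hκ
  have e1 : κ u₀ v₀ = z := by simp [hκ]
  have e2 : κ v₀ u₀ = z := by simp [hκ]
  have e3 : ∀ v w, ¬ (v = u₀ ∧ w = v₀) → ¬ (v = v₀ ∧ w = u₀) → κ v w = κ₁ v w := by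
    intro v w ha hb'
    simp only [hκ, ha, hb', or_self, if_false]
  -- a vertex other than `v₀`, with a common bound `k`
  have key : ∀ (k : ℤ) (v : V), 0 < k → v ≠ v₀ →
      (∀ w w', G₁.Adj v w → G₁.Adj v w' → w ≠ w' → κ₁ v w ≠ κ₁ v w' ∧ κ₁ v w < κ₁ v w' + k) →
      (v = u₀ → ∀ w, G₁.Adj u₀ w → κ₁ u₀ w < z + k ∧ z < κ₁ u₀ w + k) →
      ∀ w w', G.Adj v w → G.Adj v w' → w ≠ w' → κ v w ≠ κ v w' ∧ κ v w < κ v w' + k := by
    intro k v hk hv hg hu w w' hw hw' hne
    by_cases hvu : v = u₀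
    · subst hvu
      by_cases hw1 : w = v₀
      · subst hw1
        have hw'1 : w' ≠ w := hne.symm
        have hadj : G₁.Adj v w' := h1 v w' hw' (fun h => hw'1 h.2) (fun h => huv' h.1)
        rw [e1, e3 v w' (fun h => hw'1 h.2) (fun h => huv' h.1)]
        exact ⟨fun h => hz w' hadj h.symm, (hu rfl w' hadj).2⟩
      · have hadj : G₁.Adj v w := h1 v w hw (fun h => hw1 h.2) (fun h => huv' h.1)
        rw [e3 v w (fun h => hw1 h.2) (fun h => huv' h.1)]
        by_cases hw2 : w' = v₀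
        · subst hw2
          rw [e1]
          exact ⟨hz w hadj, (hu rfl w hadj).1⟩
        · have hadj' : G₁.Adj v w' := h1 v w' hw' (fun h => hw2 h.2) (fun h => huv' h.1)
          rw [e3 v w' (fun h => hw2 h.2) (fun h => huv' h.1)]
          exact hg w w' hadj hadj' hne
    · rw [e3 v w (fun h => hvu h.1) (fun h => hv h.1), e3 v w' (fun h => hvu h.1) (fun h => hv h.1)]
      exact hg w w' (h1 v w hw (fun h => hvu h.1) (fun h => hv h.1))
        (h1 v w' hw' (fun h => hvu h.1) (fun h => hv h.1)) hne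
  refine ⟨κ, ⟨?_, ?_, ?_⟩⟩
  · intro v w hvw
    by_cases ha : v = u₀ ∧ w = v₀
    · obtain ⟨rfl, rfl⟩ := ha
      rw [e1, e2]
    · by_cases hb' : v = v₀ ∧ w = u₀
      · obtain ⟨rfl, rfl⟩ := hb'
        rw [e1, e2]
      · rw [e3 v w ha hb', e3 w v (fun h => hb' ⟨h.2, h.1⟩) (fun h => ha ⟨h.2, h.1⟩)]
        exact hκ₁.symm v w (h1 v w hvw ha hb')
  · intro v hvX w w' hw hw' hne
    by_cases hv : v = v₀
    · subst hv
      exact absurd ((hleaf w hw).trans (hleaf w' hw').symm) hne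
    · refine key 3 v (by norm_num) hv (fun a b ha hb' hab => hκ₁.gx v hvX a b ha hb' hab) ?_ w w' hw hw' hne
      intro h
      subst h
      exact hzx hvX
  · intro v hvX w w' hw hw' hne
    by_cases hv : v = v₀
    · subst hv
      exact absurd ((hleaf w hw).trans (hleaf w' hw').symm) hne
    · refine key 4 v (by norm_num) hv (fun a b ha hb' hab => hκ₁.gy v hvX a b ha hb' hab) ?_ w w' hw hw' hne
      intro h
      subst h
      exact hzy hvX

/-- The two-edge-connected case, with bounds. -/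
theorem Outer_e2 (G : SimpleGraph V) (X : Set V) (hb : Bip G X) (h2 : E2 G) :
    ∃ κ : V → V → ℤ, Good G X κ ∧ ∀ v w, G.Adj v w → 1 ≤ κ v w ∧ κ v w ≤ 6 := by
  by_cases hne : ∃ u v, G.Adj u v
  · obtain ⟨P, c, y₀, hs⟩ := skel_exists G X hb h2 hne
    exact good_of_skel G X hb P c y₀ hs
  · push Not at hne
    exact ⟨fun _ _ => 0, ⟨fun v w h => absurd h (hne v w), fun v _ w _ h => absurd h (hne v w),
      fun v _ w _ h => absurd h (hne v w)⟩, fun v w h => absurd h (hne v w)⟩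

/-- A set without boundary. -/
theorem Outer_closed {G : SimpleGraph V} {S : Finset V} (h : (bd G S).card = 0) (v w : V) (hvw : G.Adj v w) :
    v ∈ S ↔ w ∈ S := by
  rw [Finset.card_eq_zero] at h
  constructor
  · intro hv
    by_contra hw
    have : (v, w) ∈ bd G S := by
      rw [mem_bd]
      exact ⟨hv, hw, hvw⟩
    rw [h] at this
    exact absurd this (Finset.notMem_empty _)
  · intro hw
    by_contra hv
    have : (w, v) ∈ bd G S := by
      rw [mem_bd]
      exact ⟨hw, hv, hvw.symm⟩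
    rw [h] at this
    exact absurd this (Finset.notMem_empty _)

theorem Outer_aux : ∀ (n : ℕ) (G : SimpleGraph V) (X : Set V), sz G = n → Bip G X → ∃ κ : V → V → ℤ, Good G X κ := by
  classical
  intro n
  induction n using Nat.strong_induction_on with
  | _ n IH =>
  intro G X hn hb
  have ih : ∀ G' : SimpleGraph V, sz G' < sz G → Bip G' X → ∃ κ : V → V → ℤ, Good G' X κ :=
    fun G' h hb' => IH _ (hn ▸ h) G' X rfl hb'
  by_cases h2 : E2 G
  · obtain ⟨κ, hκ, _⟩ := Outer_e2 G X hb h2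
    exact ⟨κ, hκ⟩
  · unfold E2 at h2
    push Not at h2
    obtain ⟨S, ⟨u, hu, w, huw⟩, ⟨v, hv, w', hvw'⟩, hlt⟩ := h2
    by_cases h0 : (bd G S).card = 0
    · have hcl := Outer_closed h0
      set G₁ := Outer_sub G (fun a b => a ∈ S ∧ b ∈ S) (fun a b h => ⟨h.2, h.1⟩) with hG₁
      set G₂ := Outer_sub G (fun a b => a ∉ S ∧ b ∉ S) (fun a b h => ⟨h.2, h.1⟩) with hG₂
      obtain ⟨κ₁, hκ₁⟩ := ih G₁ (Outer_sz (fun a b h => h.1) hvw' (fun h => hv h.2.1)) (Outer_bip hb (fun a b h => h.1))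
      obtain ⟨κ₂, hκ₂⟩ := ih G₂ (Outer_sz (fun a b h => h.1) huw (fun h => h.2.1 hu)) (Outer_bip hb (fun a b h => h.1))
      obtain ⟨κ, hκ, _⟩ := Outer_comb0 (G := G) hκ₁ hκ₂ hcl (fun a b ha hb' h => ⟨h, ha, hb'⟩)
        (fun a b ha hb' h => ⟨h, ha, hb'⟩)
      exact ⟨κ, hκ⟩
    · have h1 : (bd G S).card = 1 := by omega
      obtain ⟨⟨u₀, v₀⟩, hbd⟩ := Finset.card_eq_one.mp h1
      have hm : (u₀, v₀) ∈ bd G S := by rw [hbd]; simp
      rw [mem_bd] at hm
      obtain ⟨hu₀, hv₀, huv₀⟩ := hm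
      simp only at hu₀ hv₀ huv₀
      have hS : ∀ a b, G.Adj a b → a ∈ S → b ∉ S → a = u₀ ∧ b = v₀ := by
        intro a b hab ha hb'
        have : (a, b) ∈ bd G S := by
          rw [mem_bd]
          exact ⟨ha, hb', hab⟩
        rw [hbd, mem_singleton, Prod.mk.injEq] at this
        exact this
      by_cases hin : ∃ a b, a ∈ S ∧ b ∈ S ∧ G.Adj a b
      · by_cases hout : ∃ a b, a ∉ S ∧ b ∉ S ∧ G.Adj a b
        · obtain ⟨a, b, ha, hb', hab⟩ := hin
          obtain ⟨a', b', ha', hb'', hab'⟩ := hout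
          set G₁ := Outer_sub G (fun a b => a ∈ S ∨ b ∈ S) (fun a b h => h.symm) with hG₁
          set G₂ := Outer_sub G (fun a b => a ∉ S ∨ b ∉ S) (fun a b h => h.symm) with hG₂
          obtain ⟨κ₁, hκ₁⟩ := ih G₁ (Outer_sz (fun a b h => h.1) hab' (fun h => h.2.elim ha' hb''))
            (Outer_bip hb (fun a b h => h.1))
          obtain ⟨κ₂, hκ₂⟩ := ih G₂ (Outer_sz (fun a b h => h.1) hab (fun h => h.2.elim (fun h => h ha) (fun h => h hb')))
            (Outer_bip hb (fun a b h => h.1))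
          exact Outer_comb1 (G := G) hκ₁ hκ₂ hu₀ hv₀ huv₀ hS (fun a b ha h => ⟨h, Or.inl ha⟩)
            (fun a b ha h => ⟨h, Or.inl ha⟩)
        · push Not at hout
          have hleaf : ∀ w, G.Adj v₀ w → w = u₀ := by
            intro w hw
            by_cases hwS : w ∈ S
            · exact (hS w v₀ hw.symm hwS hv₀).1
            · exact absurd hw (hout v₀ w hv₀ hwS)
          set G₁ := Outer_sub G (fun a b => ¬ (a = u₀ ∧ b = v₀) ∧ ¬ (a = v₀ ∧ b = u₀))
            (fun a b h => ⟨fun h' => h.2 ⟨h'.2, h'.1⟩, fun h' => h.1 ⟨h'.2, h'.1⟩⟩) with hG₁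
          obtain ⟨κ₁, hκ₁⟩ := ih G₁ (Outer_sz (fun a b h => h.1) huv₀ (fun h => h.2.1 ⟨rfl, rfl⟩))
            (Outer_bip hb (fun a b h => h.1))
          exact Outer_leaf hb hκ₁ huv₀ hleaf (fun a b h ha hb' => ⟨h, ha, hb'⟩) (fun a b h => ⟨h.1, h.2.1⟩)
      · push Not at hin
        have hleaf : ∀ w, G.Adj u₀ w → w = v₀ := by
          intro w hw
          by_cases hwS : w ∈ S
          · exact absurd hw (hin u₀ w hu₀ hwS)
          · exact (hS u₀ w hw hu₀ hwS).2
        set G₁ := Outer_sub G (fun a b => ¬ (a = v₀ ∧ b = u₀) ∧ ¬ (a = u₀ ∧ b = v₀))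
          (fun a b h => ⟨fun h' => h.2 ⟨h'.2, h'.1⟩, fun h' => h.1 ⟨h'.2, h'.1⟩⟩) with hG₁
        obtain ⟨κ₁, hκ₁⟩ := ih G₁ (Outer_sz (fun a b h => h.1) huv₀ (fun h => h.2.2 ⟨rfl, rfl⟩))
          (Outer_bip hb (fun a b h => h.1))
        exact Outer_leaf hb hκ₁ huv₀.symm hleaf (fun a b h ha hb' => ⟨h, ha, hb'⟩) (fun a b h => ⟨h.1, h.2.1⟩)

theorem good_all (G : SimpleGraph V) (X : Set V) (hb : Bip G X) : ∃ κ : V → V → ℤ, Good G X κ :=
  Outer_aux (sz G) G X rfl hb

theorem Outer_six : ∀ (n : ℕ) (G : SimpleGraph V) (X : Set V), sz G = n → Bip G X →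
    (∀ S : Finset V, (bd G S).card ≠ 1) →
    ∃ κ : V → V → ℤ, Good G X κ ∧ ∀ v w, G.Adj v w → 1 ≤ κ v w ∧ κ v w ≤ 6 := by
  classical
  intro n
  induction n using Nat.strong_induction_on with
  | _ n IH =>
  intro G X hn hb h1
  have ih : ∀ G' : SimpleGraph V, sz G' < sz G → Bip G' X → (∀ S : Finset V, (bd G' S).card ≠ 1) →
      ∃ κ : V → V → ℤ, Good G' X κ ∧ ∀ v w, G'.Adj v w → 1 ≤ κ v w ∧ κ v w ≤ 6 :=
    fun G' h hb' h1' => IH _ (hn ▸ h) G' X rfl hb' h1'
  by_cases h2 : E2 G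
  · exact Outer_e2 G X hb h2
  · unfold E2 at h2
    push Not at h2
    obtain ⟨S, ⟨u, hu, w, huw⟩, ⟨v, hv, w', hvw'⟩, hlt⟩ := h2
    have h0 : (bd G S).card = 0 := by
      have := h1 S
      omega
    have hcl := Outer_closed h0
    have hbd : ∀ (R : Finset V), (∀ a b, G.Adj a b → (a ∈ R ↔ b ∈ R)) → ∀ (hR : ∀ a b, (a ∈ R ∧ b ∈ R) → (b ∈ R ∧ a ∈ R))
        (T : Finset V), bd (Outer_sub G (fun a b => a ∈ R ∧ b ∈ R) hR) T = bd G (T ∩ R) := by
      intro R hRc hR T
      ext q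
      simp only [mem_bd, mem_inter]
      constructor
      · rintro ⟨ha, hb', hadj, hc, hd⟩
        exact ⟨⟨ha, hc⟩, fun h => hb' h.1, hadj⟩
      · rintro ⟨⟨ha, hb'⟩, hc, hadj⟩
        have hq : q.2 ∈ R := (hRc q.1 q.2 hadj).mp hb'
        exact ⟨ha, fun h => hc ⟨h, hq⟩, hadj, hb', hq⟩
    have hcl' : ∀ a b, G.Adj a b → (a ∈ Sᶜ ↔ b ∈ Sᶜ) := by
      intro a b hab
      rw [mem_compl, mem_compl, hcl a b hab]
    set G₁ := Outer_sub G (fun a b => a ∈ S ∧ b ∈ S) (fun a b h => ⟨h.2, h.1⟩) with hG₁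
    set G₂ := Outer_sub G (fun a b => a ∈ Sᶜ ∧ b ∈ Sᶜ) (fun a b h => ⟨h.2, h.1⟩) with hG₂
    obtain ⟨κ₁, hκ₁, hr₁⟩ := ih G₁ (Outer_sz (fun a b h => h.1) hvw' (fun h => hv h.2.1))
      (Outer_bip hb (fun a b h => h.1)) (fun T => by rw [hG₁, hbd S hcl]; exact h1 _)
    obtain ⟨κ₂, hκ₂, hr₂⟩ := ih G₂ (Outer_sz (fun a b h => h.1) huw (fun h => (mem_compl.mp h.2.1) hu))
      (Outer_bip hb (fun a b h => h.1)) (fun T => by rw [hG₂, hbd Sᶜ hcl']; exact h1 _)
    obtain ⟨κ, hκ, e1, e2⟩ := Outer_comb0 (G := G) hκ₁ hκ₂ hcl (fun a b ha hb' h => ⟨h, ha, hb'⟩)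
      (fun a b ha hb' h => ⟨h, mem_compl.mpr ha, mem_compl.mpr hb'⟩)
    refine ⟨κ, hκ, ?_⟩
    intro a b hab
    by_cases ha : a ∈ S
    · rw [e1 a b hab ha]
      exact hr₁ a b ⟨hab, ha, (hcl a b hab).mp ha⟩
    · rw [e2 a b hab ha]
      exact hr₂ a b ⟨hab, mem_compl.mpr ha, mem_compl.mpr (fun h => ha ((hcl a b hab).mpr h))⟩

theorem good_six (G : SimpleGraph V) (X : Set V) (hb : Bip G X) (h1 : ∀ S : Finset V, (bd G S).card ≠ 1) :
    ∃ κ : V → V → ℤ, Good G X κ ∧ ∀ v w, G.Adj v w → 1 ≤ κ v w ∧ κ v w ≤ 6 :=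
  Outer_six (sz G) G X rfl hb h1

end Pool.Agent.H70.TF
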