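import Pool.Agent.H70.TF.SplitA

/-!
# The splitting lemma

Start with `τ = false` (`spl G τ` is `G` with additional isolated vertices), apply `split_one` to the vertices of degree 4 off `X` one
after the other (induction over a finset of vertices; they are changed only once).
-/

set_option autoImplicit false

noncomputable section

namespace Pool.Agent.H70.TF

open Finset

variable {V : Type} [Fintype V]

theorem Split_base (G : SimpleGraph V) (h2 : E2 G) : E2 (spl G (fun _ _ => false)) := by
  classical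
  intro S hS hS'
  obtain ⟨⟨u, i⟩, hu, ⟨w, j⟩, huw⟩ := hS
  obtain ⟨⟨v, i'⟩, hv, ⟨w', j'⟩, hvw⟩ := hS'
  obtain ⟨a1, a2, a3⟩ := huw
  obtain ⟨b1, b2, b3⟩ := hvw
  dsimp only at a1 a2 a3 b1 b2 b3
  subst a2
  subst b2
  set S₀ : Finset V := univ.filter (fun x => (x, false) ∈ S) with hS₀
  have hm : ∀ x, x ∈ S₀ ↔ (x, false) ∈ S := by
    intro x
    simp [hS₀]
  have h := h2 S₀ ⟨u, (hm u).2 hu, w, a1⟩ ⟨v, fun h => hv ((hm v).1 h), w', b1⟩
  refine h.trans ?_
  refine Finset.card_le_card_of_injOn (fun q => ((q.1, false), (q.2, false))) ?_ ?_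
  · intro q hq
    have hq' := mem_bd.1 (Finset.mem_coe.1 hq)
    apply Finset.mem_coe.2
    rw [mem_bd]
    exact ⟨(hm _).1 hq'.1, fun h => hq'.2.1 ((hm _).2 h), hq'.2.2, rfl, rfl⟩
  · intro q _ q' _ hqq
    simp only [Prod.mk.injEq, and_true] at hqq
    exact Prod.ext hqq.1 hqq.2

theorem split_exists (G : SimpleGraph V) (X : Set V) (hb : Bip G X) (h2 : E2 G) : ∃ τ : V → V → Bool, Spl G X τ := by
  classical
  have key : ∀ D : Finset V, (∀ y ∈ D, (nb G y).card = 4) → ∃ τ : V → V → Bool, (∀ v, v ∉ D → ∀ w, τ v w = false) ∧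
      (∀ y ∈ D, ∀ i : Bool, ((nb G y).filter (fun w => τ y w = i)).card = 2) ∧ E2 (spl G τ) := by
    intro D
    induction D using Finset.induction_on with
    | empty =>
      intro _
      exact ⟨fun _ _ => false, fun _ _ _ => rfl, fun y hy => absurd hy (Finset.notMem_empty y), Split_base G h2⟩
    | insert y D hy ih =>
      intro hD
      obtain ⟨τ, h1, h3, h4⟩ := ih (fun z hz => hD z (Finset.mem_insert_of_mem hz))
      obtain ⟨τ', g1, g2, g3⟩ := split_one G τ y h4 (hD y (Finset.mem_insert_self y D)) (h1 y hy)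
      refine ⟨τ', fun v hv w => ?_, fun z hz i => ?_, g3⟩
      · rw [Finset.mem_insert, not_or] at hv
        rw [g1 v hv.1]
        exact h1 v hv.2 w
      · rcases Finset.mem_insert.1 hz with h5 | h5
        · subst h5
          have := g2 i
          convert this
        · have hzy : z ≠ y := fun h => hy (h ▸ h5)
          have := h3 z h5 i
          rw [g1 z hzy]
          exact this
  obtain ⟨τ, h1, h3, h4⟩ := key (univ.filter (fun y => y ∉ X ∧ (nb G y).card = 4)) (fun y hy => (Finset.mem_filter.1 hy).2.2)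
  refine ⟨τ, fun x hx w => h1 x (fun h => (Finset.mem_filter.1 h).2.1 hx) w,
    fun y _ hd w => h1 y (fun h => ?_) w, fun y hy hd i => ?_, h4⟩
  · have := (Finset.mem_filter.1 h).2.2
    omega
  · have := h3 y (Finset.mem_filter.2 ⟨Finset.mem_univ y, hy, hd⟩) i
    convert this

end Pool.Agent.H70.TF
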