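import Pool.Agent.H70.TF.Star
import Pool.Agent.H70.TF.Split

/-!
# Skeletons exist

`H = spl G τ` (`split_exists`).  Choose `x₀` in `X`, of degree 3 if there is one, otherwise any vertex of `X` with a neighbour (degree 2, by `E2`).
`A` = the nonisolated vertices of `H` other than `(x₀, false)`.  `Config H A (degree of x₀)`: degrees at most 3 (a vertex `(x, false)`
has the degree of `x`, `(y, i)` has degree 2 if `y` has degree 4, otherwise that of `y`); boundary pairs of `A` are the pairs `(m, (x₀, false))`, `m` a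
neighbour; every nonempty `W ⊆ A` has at least two boundary pairs by `E2`.

`three` (degree 3): choose `b` different from `k₁`; `star` (degree 2).  So there is `Sol H A c p`, and if `x₀` has degree 3, the three values
`kap c p m (x₀, false)` are not all equal.  Put, for `x ≠ x₀` in `X`: `c' x = c (x, false)`,
`P x y = kap c p (x, false) (y, τ y x)` (so minor iff picked by `(x, false)`), and `P x₀ y = ! kap c p (y, τ y x₀) (x₀, false)`, `c' x₀` the label for which there is
at most one minor edge and at most two others, `y₀` the neighbour with the minor edge (any vertex if there is none).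
For an edge `x y`, `w = (y, τ y x)`: `P x y = ! kap c p w (x, false)` also for `x ≠ x₀` (from `Sol.mono`, `Sol.once`).  So at every `w = (y, i)` in `A` exactly
one neighbour (`p w`) has `P = ! c w` and all others have `P = c w` (one if `w` has degree 2, at most two in general); the minor edges of
`x ≠ x₀` at `w` are not picked by `w` and have `P = c w`, so there is at most one at a `w` of degree 2 and at most two in general.
This gives `y1`, `y2`, `y3` (the edge of `x₀` adds one minor edge at `y₀`; `y` of degree 4 consists of two `w`).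
-/

set_option autoImplicit false

noncomputable section

namespace Pool.Agent.H70.TF

open Finset

variable {V : Type} [Fintype V]

open Classical in
/-- The nonisolated vertices of the split graph other than `(x₀, false)`. -/
def SkelE_A (G : SimpleGraph V) (τ : V → V → Bool) (x₀ : V) : Finset (V × Bool) :=
  univ.filter (fun v => v ≠ (x₀, false) ∧ ∃ w, (spl G τ).Adj v w)

theorem SkelE_mem {G : SimpleGraph V} {τ : V → V → Bool} {x₀ : V} {v : V × Bool} :
    v ∈ SkelE_A G τ x₀ ↔ v ≠ (x₀, false) ∧ ∃ w, (spl G τ).Adj v w := by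
  simp [SkelE_A]

theorem SkelE_adj {G : SimpleGraph V} {X : Set V} {τ : V → V → Bool} (hs : Spl G X τ) {x y : V} (hx : x ∈ X)
    (h : G.Adj x y) : (spl G τ).Adj (x, false) (y, τ y x) :=
  ⟨h, hs.tx x hx y, rfl⟩

theorem SkelE_memy {G : SimpleGraph V} {X : Set V} {τ : V → V → Bool} (hs : Spl G X τ) {x y x₀ : V} (hx : x ∈ X)
    (hy : y ∉ X) (hx0 : x₀ ∈ X) (h : G.Adj x y) : (y, τ y x) ∈ SkelE_A G τ x₀ := by
  rw [SkelE_mem]
  refine ⟨fun h1 => ?_, (x, false), (SkelE_adj hs hx h).symm⟩
  have h2 : y = x₀ := congrArg Prod.fst h1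
  exact hy (h2 ▸ hx0)

theorem SkelE_memx {G : SimpleGraph V} {X : Set V} {τ : V → V → Bool} (hs : Spl G X τ) {x y x₀ : V} (hx : x ∈ X)
    (hne : x ≠ x₀) (h : G.Adj x y) : (x, false) ∈ SkelE_A G τ x₀ := by
  rw [SkelE_mem]
  refine ⟨fun h1 => hne (congrArg Prod.fst h1), (y, τ y x), SkelE_adj hs hx h⟩

theorem SkelE_degH (G : SimpleGraph V) (τ : V → V → Bool) (v : V) (i : Bool) :
    (nb (spl G τ) (v, i)).card = ((nb G v).filter (fun w => τ v w = i)).card := by
  classical
  symm
  apply Finset.card_bij (fun w _ => (w, τ w v))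
  · intro w hw
    rw [mem_filter, mem_nb] at hw
    rw [mem_nb]
    exact ⟨hw.1, hw.2, rfl⟩
  · intro a _ b _ hab
    exact congrArg Prod.fst hab
  · rintro ⟨w, j⟩ hw
    rw [mem_nb] at hw
    obtain ⟨h1, h2, h3⟩ := hw
    refine ⟨w, ?_, ?_⟩
    · rw [mem_filter, mem_nb]
      exact ⟨h1, h2⟩
    · exact Prod.ext rfl h3

theorem SkelE_bd1 (G : SimpleGraph V) (v : V) : (bd G {v}).card = (nb G v).card := by
  classical
  apply Finset.card_bij (fun q _ => q.2)
  · intro q hq
    rw [mem_bd, mem_singleton] at hq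
    rw [mem_nb, ← hq.1]
    exact hq.2.2
  · intro a ha b hb hab
    rw [mem_bd, mem_singleton] at ha hb
    exact Prod.ext (ha.1.trans hb.1.symm) hab
  · intro w hw
    rw [mem_nb] at hw
    refine ⟨(v, w), ?_, rfl⟩
    rw [mem_bd]
    exact ⟨by simp, by simpa using hw.ne', hw⟩

theorem SkelE_bdA (G : SimpleGraph V) (X : Set V) (hb : Bip G X) (τ : V → V → Bool) (hs : Spl G X τ) (x₀ : V)
    (hx : x₀ ∈ X) : (bd (spl G τ) (SkelE_A G τ x₀)).card = (nb G x₀).card := by
  classical
  symm
  apply Finset.card_bij (fun y _ => ((y, τ y x₀), (x₀, false)))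
  · intro y hy
    rw [mem_nb] at hy
    rw [mem_bd]
    refine ⟨SkelE_memy hs hx ((hb.bip x₀ y hy).1 hx) hx hy, ?_, (SkelE_adj hs hx hy).symm⟩
    rw [SkelE_mem]
    exact fun h => h.1 rfl
  · intro a _ b _ hab
    exact congrArg (fun q : (V × Bool) × (V × Bool) => q.1.1) hab
  · rintro ⟨⟨y, i⟩, ⟨z, j⟩⟩ hq
    rw [mem_bd] at hq
    obtain ⟨h1, h2, h3⟩ := hq
    have h4 : ((z, j) : V × Bool) = (x₀, false) := by
      by_contra h
      exact h2 (SkelE_mem.2 ⟨h, _, h3.symm⟩)
    have hj : j = false := congrArg Prod.snd h4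
    have hz : z = x₀ := congrArg Prod.fst h4
    subst hj
    subst hz
    obtain ⟨g1, g2, g3⟩ := h3
    dsimp only at g1 g2 g3
    refine ⟨y, ?_, ?_⟩
    · rw [mem_nb]
      exact g1.symm
    · rw [g2]

theorem SkelE_config (G : SimpleGraph V) (X : Set V) (hb : Bip G X) (τ : V → V → Bool) (hs : Spl G X τ) (x₀ : V)
    (hx : x₀ ∈ X) (hne : ∃ y, G.Adj x₀ y) : Config (spl G τ) (SkelE_A G τ x₀) (nb G x₀).card := by
  classical
  refine ⟨?_, ?_, SkelE_bdA G X hb τ hs x₀ hx⟩
  · rintro ⟨v, i⟩ _
    rw [SkelE_degH]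
    have h0 : ((nb G v).filter (fun w => τ v w = i)).card ≤ (nb G v).card := card_le_card (filter_subset _ _)
    by_cases hv : v ∈ X
    · exact h0.trans (hb.dx v hv)
    · by_cases h3 : (nb G v).card ≤ 3
      · exact h0.trans h3
      · have h4 : (nb G v).card = 4 := by
          have := hb.dy v hv
          omega
        have h5 := hs.t4 v hv h4 i
        have h6 : ((nb G v).filter (fun w => τ v w = i)).card = 2 := by
          rw [← h5]
        omega
  · intro W hW hWn
    obtain ⟨u, hu⟩ := hWn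
    obtain ⟨y, hy⟩ := hne
    refine hs.e2 W ⟨u, hu, (SkelE_mem.1 (hW hu)).2⟩ ⟨(x₀, false), fun h => (SkelE_mem.1 (hW h)).1 rfl, _, SkelE_adj hs hx hy⟩

/-- The classes. -/
def SkelE_P (τ : V → V → Bool) (c : V × Bool → Bool) (p : V × Bool → V × Bool) (x y : V) : Bool :=
  !(kap c p (y, τ y x) (x, false))

omit [Fintype V] in
theorem SkelE_P1 (τ : V → V → Bool) (c : V × Bool → Bool) (p : V × Bool → V × Bool) {x y : V}
    (h : p (y, τ y x) = (x, false)) : SkelE_P τ c p x y = !(c (y, τ y x)) := by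
  unfold SkelE_P kap
  rw [if_pos h]

omit [Fintype V] in
theorem SkelE_P2 (τ : V → V → Bool) (c : V × Bool → Bool) (p : V × Bool → V × Bool) {x y : V}
    (h : p (y, τ y x) ≠ (x, false)) : SkelE_P τ c p x y = c (y, τ y x) := by
  unfold SkelE_P kap
  rw [if_neg h, Bool.not_not]

theorem SkelE_minor {G : SimpleGraph V} {X : Set V} (hb : Bip G X) {τ : V → V → Bool} (hs : Spl G X τ) {x₀ : V}
    (hx0 : x₀ ∈ X) {c : V × Bool → Bool} {p : V × Bool → V × Bool} (hsol : Sol (spl G τ) (SkelE_A G τ x₀) c p)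
    {x y : V} (hx : x ∈ X) (hne : x ≠ x₀) (h : G.Adj x y) :
    SkelE_P τ c p x y = c (x, false) ↔ p (x, false) = (y, τ y x) := by
  have hy : y ∉ X := (hb.bip x y h).1 hx
  have m1 := SkelE_memx hs hx hne h
  have m2 := SkelE_memy hs hx hy hx0 h
  have m3 := SkelE_adj hs hx h
  have h1 := hsol.mono _ m1 _ m2 m3
  have h2 := hsol.once _ m1 _ m2 m3
  by_cases h3 : p (y, τ y x) = (x, false)
  · rw [SkelE_P1 τ c p h3]
    have h4 : ¬ p (x, false) = (y, τ y x) := fun h4 => h2 ⟨h4, h3⟩
    have h5 : c (x, false) = c (y, τ y x) := h1.2 (Or.inr h3)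
    simp only [h4, iff_false]
    rw [h5]
    cases c (y, τ y x) <;> simp
  · rw [SkelE_P2 τ c p h3]
    constructor
    · intro h4
      rcases h1.1 h4.symm with h5 | h5
      · exact h5
      · exact absurd h5 h3
    · intro h4
      exact (h1.2 (Or.inl h4)).symm

theorem SkelE_pick {G : SimpleGraph V} {X : Set V} (hb : Bip G X) {τ : V → V → Bool} (hs : Spl G X τ) {x₀ : V}
    (hx0 : x₀ ∈ X) {c : V × Bool → Bool} {p : V × Bool → V × Bool} (hsol : Sol (spl G τ) (SkelE_A G τ x₀) c p)
    {y : V} (hy : y ∉ X) {i : Bool} (hn : ∃ x, G.Adj y x ∧ τ y x = i) :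
    ∃ x, G.Adj y x ∧ τ y x = i ∧ p (y, i) = (x, false) := by
  obtain ⟨x, hx, hxi⟩ := hn
  have hxX : x ∈ X := (hb.bip x y hx.symm).2 hy
  have m2 := SkelE_memy hs hxX hy hx0 hx.symm
  rw [hxi] at m2
  obtain ⟨g1, g2, g3⟩ := hsol.adj _ m2
  dsimp only at g1 g2 g3
  have hz : (p (y, i)).1 ∈ X := (hb.bip _ y g1.symm).2 hy
  rw [hs.tx _ hz] at g3
  exact ⟨(p (y, i)).1, g1, g2, Prod.ext rfl g3.symm⟩

open Classical in
/-- The classes at one half. -/
theorem SkelE_half {G : SimpleGraph V} {X : Set V} (hb : Bip G X) {τ : V → V → Bool} (hs : Spl G X τ) {x₀ : V}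
    (hx0 : x₀ ∈ X) {c : V × Bool → Bool} {p : V × Bool → V × Bool} (hsol : Sol (spl G τ) (SkelE_A G τ x₀) c p)
    {y : V} (hy : y ∉ X) (i b : Bool) {k : ℕ} (hk : 1 ≤ k) (hd : ((nb G y).filter (fun x => τ y x = i)).card ≤ k + 1) :
    ((nb G y).filter (fun x => τ y x = i ∧ SkelE_P τ c p x y = b)).card ≤ k := by
  by_cases hn : ∃ x, G.Adj y x ∧ τ y x = i
  · obtain ⟨z, z1, z2, z3⟩ := SkelE_pick hb hs hx0 hsol hy hn
    by_cases hbc : b = c (y, i)
    · have h1 : (nb G y).filter (fun x => τ y x = i ∧ SkelE_P τ c p x y = b) ⊆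
          ((nb G y).filter (fun x => τ y x = i)).erase z := by
        intro x hx
        rw [mem_filter] at hx
        rw [mem_erase, mem_filter]
        refine ⟨?_, hx.1, hx.2.1⟩
        rintro rfl
        have h2 : p (y, τ y x) = (x, false) := by rw [z2, z3]
        have h3 := SkelE_P1 τ c p h2
        rw [hx.2.2, z2, hbc] at h3
        revert h3
        cases c (y, i) <;> simp
      have h2 := card_le_card h1
      have h3 : (((nb G y).filter (fun x => τ y x = i)).erase z).card + 1 = ((nb G y).filter (fun x => τ y x = i)).card := by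
        apply card_erase_add_one
        rw [mem_filter, mem_nb]
        exact ⟨z1, z2⟩
      omega
    · have h1 : (nb G y).filter (fun x => τ y x = i ∧ SkelE_P τ c p x y = b) ⊆ {z} := by
        intro x hx
        rw [mem_filter] at hx
        rw [mem_singleton]
        by_contra hxz
        have h2 : p (y, τ y x) ≠ (x, false) := by
          rw [hx.2.1, z3]
          intro h
          exact hxz (congrArg Prod.fst h).symm
        have h3 := SkelE_P2 τ c p h2
        rw [hx.2.2, hx.2.1] at h3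
        exact hbc h3
      have h2 := card_le_card h1
      rw [card_singleton] at h2
      omega
  · have h1 : (nb G y).filter (fun x => τ y x = i ∧ SkelE_P τ c p x y = b) = ∅ := by
      rw [filter_eq_empty_iff]
      intro x hx h
      rw [mem_nb] at hx
      exact hn ⟨x, hx, h.1⟩
    rw [h1, card_empty]
    omega

open Classical in
/-- The minor edges at one half. -/
theorem SkelE_halfm {G : SimpleGraph V} {X : Set V} (hb : Bip G X) {τ : V → V → Bool} (hs : Spl G X τ) {x₀ : V}
    (hx0 : x₀ ∈ X) {c : V × Bool → Bool} {p : V × Bool → V × Bool} (hsol : Sol (spl G τ) (SkelE_A G τ x₀) c p)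
    {y : V} (hy : y ∉ X) (i : Bool) {k : ℕ} (hd : ((nb G y).filter (fun x => τ y x = i)).card ≤ k + 1) :
    ((nb G y).filter (fun x => τ y x = i ∧ x ≠ x₀ ∧ SkelE_P τ c p x y = c (x, false))).card ≤ k := by
  by_cases hn : ∃ x, G.Adj y x ∧ τ y x = i
  · obtain ⟨z, z1, z2, z3⟩ := SkelE_pick hb hs hx0 hsol hy hn
    have h1 : (nb G y).filter (fun x => τ y x = i ∧ x ≠ x₀ ∧ SkelE_P τ c p x y = c (x, false)) ⊆
        ((nb G y).filter (fun x => τ y x = i)).erase z := by
      intro x hx
      rw [mem_filter] at hx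
      obtain ⟨e1, e2, e3, e4⟩ := hx
      rw [mem_erase, mem_filter]
      refine ⟨?_, e1, e2⟩
      rw [mem_nb] at e1
      have hxX : x ∈ X := (hb.bip x y e1.symm).2 hy
      have h5 := (SkelE_minor hb hs hx0 hsol hxX e3 e1.symm).1 e4
      rintro rfl
      refine hsol.once _ (SkelE_memx hs hxX e3 e1.symm) _ (SkelE_memy hs hxX hy hx0 e1.symm)
        (SkelE_adj hs hxX e1.symm) ⟨h5, ?_⟩
      rw [z2, z3]
    have h2 := card_le_card h1
    have h3 : (((nb G y).filter (fun x => τ y x = i)).erase z).card + 1 = ((nb G y).filter (fun x => τ y x = i)).card := by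
      apply card_erase_add_one
      rw [mem_filter, mem_nb]
      exact ⟨z1, z2⟩
    omega
  · have h1 : (nb G y).filter (fun x => τ y x = i ∧ x ≠ x₀ ∧ SkelE_P τ c p x y = c (x, false)) = ∅ := by
      rw [filter_eq_empty_iff]
      intro x hx h
      rw [mem_nb] at hx
      exact hn ⟨x, hx, h.1⟩
    rw [h1, card_empty]
    omega

open Classical in
/-- From the halves to the whole vertex. -/
theorem SkelE_sum {G : SimpleGraph V} {X : Set V} (hb : Bip G X) {τ : V → V → Bool} (hs : Spl G X τ)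
    {y : V} (hy : y ∉ X) (Q : V → Prop)
    (h : ∀ (i : Bool) (k : ℕ), 1 ≤ k → ((nb G y).filter (fun x => τ y x = i)).card ≤ k + 1 →
      ((nb G y).filter (fun x => τ y x = i ∧ Q x)).card ≤ k) : ((nb G y).filter Q).card ≤ 2 := by
  by_cases h3 : (nb G y).card ≤ 3
  · have h4 := h false 2 (by norm_num) ((card_le_card (filter_subset _ _)).trans h3)
    have h5 : (nb G y).filter Q ⊆ (nb G y).filter (fun x => τ y x = false ∧ Q x) := by
      intro x hx
      rw [mem_filter] at hx ⊢
      exact ⟨hx.1, hs.ty y hy h3 x, hx.2⟩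
    exact (card_le_card h5).trans h4
  · have h4 : (nb G y).card = 4 := by
      have := hb.dy y hy
      omega
    have e : ∀ i : Bool, ((nb G y).filter (fun x => τ y x = i)).card ≤ 1 + 1 := by
      intro i
      have h5 := hs.t4 y hy h4 i
      have h6 : ((nb G y).filter (fun w => τ y w = i)).card = 2 := by
        rw [← h5]
      omega
    have h5 := h false 1 le_rfl (e false)
    have h6 := h true 1 le_rfl (e true)
    have h7 : (nb G y).filter Q ⊆ (nb G y).filter (fun x => τ y x = false ∧ Q x) ∪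
        (nb G y).filter (fun x => τ y x = true ∧ Q x) := by
      intro x hx
      rw [mem_filter] at hx
      rw [mem_union, mem_filter, mem_filter]
      cases hxy : τ y x
      · exact Or.inl ⟨hx.1, rfl, hx.2⟩
      · exact Or.inr ⟨hx.1, rfl, hx.2⟩
    have h8 := (card_le_card h7).trans (card_union_le _ _)
    omega

open Classical in
omit [Fintype V] in
theorem SkelE_label {s : Finset V} (hs : s.card ≤ 3) (f : V → Bool) (h : s.card ≤ 2 ∨ ∃ y ∈ s, ∃ y' ∈ s, f y ≠ f y') :
    ∃ b : Bool, (s.filter (fun y => f y = b)).card ≤ 1 ∧ (s.filter (fun y => f y ≠ b)).card ≤ 2 := by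
  have h1 : (s.filter (fun y => f y = true)).card + (s.filter (fun y => ¬ f y = true)).card = s.card :=
    card_filter_add_card_filter_not _
  have h2 : s.filter (fun y => ¬ f y = true) = s.filter (fun y => f y = false) := by
    apply filter_congr
    intro y _
    cases f y <;> simp
  have h3 : s.filter (fun y => f y ≠ false) = s.filter (fun y => f y = true) := by
    apply filter_congr
    intro y _
    cases f y <;> simp
  have h4 : s.filter (fun y => f y ≠ true) = s.filter (fun y => f y = false) := h2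
  rw [h2] at h1
  have hcase : (s.filter (fun y => f y = true)).card ≤ 2 := by
    rcases h with h | ⟨y, hy, y', hy', hne⟩
    · omega
    · have h5 : 1 ≤ (s.filter (fun y => f y = false)).card := by
        rw [Nat.one_le_iff_ne_zero, Ne, card_eq_zero, ← Ne, ← nonempty_iff_ne_empty]
        cases hfy : f y
        · exact ⟨y, mem_filter.2 ⟨hy, hfy⟩⟩
        · cases hfy' : f y'
          · exact ⟨y', mem_filter.2 ⟨hy', hfy'⟩⟩
          · exact absurd (hfy.trans hfy'.symm) hne
      omega
  have hcase2 : (s.filter (fun y => f y = false)).card ≤ 2 := by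
    rcases h with h | ⟨y, hy, y', hy', hne⟩
    · omega
    · have h5 : 1 ≤ (s.filter (fun y => f y = true)).card := by
        rw [Nat.one_le_iff_ne_zero, Ne, card_eq_zero, ← Ne, ← nonempty_iff_ne_empty]
        cases hfy : f y
        · cases hfy' : f y'
          · exact absurd (hfy.trans hfy'.symm) hne
          · exact ⟨y', mem_filter.2 ⟨hy', hfy'⟩⟩
        · exact ⟨y, mem_filter.2 ⟨hy, hfy⟩⟩
      omega
  by_cases h6 : (s.filter (fun y => f y = true)).card ≤ 1
  · refine ⟨true, h6, ?_⟩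
    rw [h4]
    exact hcase2
  · refine ⟨false, ?_, ?_⟩
    · omega
    · rw [h3]
      omega

theorem SkelE_main (G : SimpleGraph V) (X : Set V) (hb : Bip G X) (τ : V → V → Bool) (hs : Spl G X τ) (x₀ : V)
    (hx0 : x₀ ∈ X) (c : V × Bool → Bool) (p : V × Bool → V × Bool) (hsol : Sol (spl G τ) (SkelE_A G τ x₀) c p)
    (hk : (nb G x₀).card ≤ 2 ∨ ∃ y ∈ nb G x₀, ∃ y' ∈ nb G x₀, SkelE_P τ c p x₀ y ≠ SkelE_P τ c p x₀ y') :
    ∃ (P : V → V → Bool) (c' : V → Bool) (y₀ : V), Skel G X P c' y₀ := by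
  classical
  obtain ⟨b₀, hb1, hb2⟩ := SkelE_label (hb.dx x₀ hx0) (SkelE_P τ c p x₀) hk
  -- the special vertex
  have hy0 : ∃ y₀ : V, ∀ y, G.Adj x₀ y → SkelE_P τ c p x₀ y = b₀ → y = y₀ := by
    by_cases h : ∃ y₀, G.Adj x₀ y₀ ∧ SkelE_P τ c p x₀ y₀ = b₀
    · obtain ⟨y₀, g1, g2⟩ := h
      refine ⟨y₀, fun y h1 h2 => ?_⟩
      rw [card_le_one] at hb1
      exact hb1 y (mem_filter.2 ⟨mem_nb.2 h1, h2⟩) y₀ (mem_filter.2 ⟨mem_nb.2 g1, g2⟩)
    · exact ⟨x₀, fun y h1 h2 => absurd ⟨y, h1, h2⟩ h⟩
  obtain ⟨y₀, hy0⟩ := hy0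
  -- minors different from x₀
  have hmin : ∀ y, y ∉ X → ((nb G y).filter (fun x => x ≠ x₀ ∧ SkelE_P τ c p x y = c (x, false))).card ≤ 2 := by
    intro y hy
    have h0 := SkelE_sum hb hs hy (fun x => x ≠ x₀ ∧ SkelE_P τ c p x y = c (x, false))
      (fun i k _ hd => by convert SkelE_halfm hb hs hx0 hsol hy i hd)
    convert h0
  refine ⟨SkelE_P τ c p, fun x => if x = x₀ then b₀ else c (x, false), y₀, ?_, ?_, ?_, ?_, ?_⟩
  · intro x hx
    by_cases hxe : x = x₀
    · subst hxe
      simp only [if_true]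
      refine (card_le_card ?_).trans hb1
      intro y hy
      simpa using hy
    · simp only [hxe, if_false]
      rw [card_le_one]
      intro a ha b hb'
      rw [mem_filter, mem_nb] at ha hb'
      have e1 := (SkelE_minor hb hs hx0 hsol hx hxe ha.1).1 ha.2
      have e2 := (SkelE_minor hb hs hx0 hsol hx hxe hb'.1).1 hb'.2
      exact congrArg Prod.fst (e1.symm.trans e2)
  · intro x hx
    by_cases hxe : x = x₀
    · subst hxe
      simp only [if_true]
      refine (card_le_card ?_).trans hb2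
      intro y hy
      simpa using hy
    · simp only [hxe, if_false]
      by_cases hn : ∃ y, G.Adj x y
      · obtain ⟨y, hy⟩ := hn
        have m1 := SkelE_memx hs hx hxe hy
        obtain ⟨g1, g2, g3⟩ := hsol.adj _ m1
        dsimp only at g1 g2 g3
        have h1 : p (x, false) = ((p (x, false)).1, τ (p (x, false)).1 x) := Prod.ext rfl g3.symm
        have h2 := (SkelE_minor hb hs hx0 hsol hx hxe g1).2 h1
        have h3 : (nb G x).filter (fun y => SkelE_P τ c p x y ≠ c (x, false)) ⊆ (nb G x).erase (p (x, false)).1 := by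
          intro z hz
          rw [mem_filter] at hz
          rw [mem_erase]
          refine ⟨?_, hz.1⟩
          rintro rfl
          exact hz.2 h2
        have h4 := card_le_card h3
        have h5 : ((nb G x).erase (p (x, false)).1).card + 1 = (nb G x).card :=
          card_erase_add_one (mem_nb.2 g1)
        have h6 := hb.dx x hx
        omega
      · have h1 : (nb G x).filter (fun y => SkelE_P τ c p x y ≠ c (x, false)) = ∅ := by
          rw [filter_eq_empty_iff]
          intro y hy _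
          exact hn ⟨y, mem_nb.1 hy⟩
        rw [h1, card_empty]
        norm_num
  · intro y hy b
    have h0 := SkelE_sum hb hs hy (fun x => SkelE_P τ c p x y = b)
      (fun i k hk hd => by convert SkelE_half hb hs hx0 hsol hy i b hk hd)
    convert h0
  · intro y hy hne
    refine (card_le_card ?_).trans (hmin y hy)
    intro x hx
    rw [mem_filter] at hx ⊢
    refine ⟨hx.1, ?_⟩
    by_cases hxe : x = x₀
    · exfalso
      subst hxe
      have h1 := hx.2
      simp only [if_true] at h1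
      exact hne (hy0 y (mem_nb.1 hx.1).symm h1)
    · have h1 := hx.2
      simp only [hxe, if_false] at h1
      exact ⟨hxe, h1⟩
  · intro y hy
    have h1 : (nb G y).filter (fun x => SkelE_P τ c p x y = if x = x₀ then b₀ else c (x, false)) ⊆
        insert x₀ ((nb G y).filter (fun x => x ≠ x₀ ∧ SkelE_P τ c p x y = c (x, false))) := by
      intro x hx
      rw [mem_filter] at hx
      rw [mem_insert, mem_filter]
      by_cases hxe : x = x₀
      · exact Or.inl hxe
      · right
        have h1 := hx.2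
        simp only [hxe, if_false] at h1
        exact ⟨hx.1, hxe, h1⟩
    have h2 := (card_le_card h1).trans (card_insert_le _ _)
    have h3 := hmin y hy
    omega

theorem skel_exists (G : SimpleGraph V) (X : Set V) (hb : Bip G X) (h2 : E2 G) (hne : ∃ u v, G.Adj u v) :
    ∃ (P : V → V → Bool) (c : V → Bool) (y₀ : V), Skel G X P c y₀ := by
  classical
  obtain ⟨τ, hs⟩ := split_exists G X hb h2
  -- a vertex of X with a neighbour
  obtain ⟨x₀, hx0, y, hy⟩ : ∃ x₀ ∈ X, ∃ y, G.Adj x₀ y := by
    obtain ⟨u, v, huv⟩ := hne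
    by_cases hu : u ∈ X
    · exact ⟨u, hu, v, huv⟩
    · exact ⟨v, (hb.bip v u huv.symm).2 hu, u, huv.symm⟩
  have hcfg := SkelE_config G X hb τ hs x₀ hx0 ⟨y, hy⟩
  have hd2 : 2 ≤ (nb G x₀).card := by
    rw [← SkelE_bd1]
    exact h2 {x₀} ⟨x₀, mem_singleton_self _, y, hy⟩ ⟨y, by simpa using hy.ne', x₀, hy.symm⟩
  have hd3 := hb.dx x₀ hx0
  have hm : ∀ z, G.Adj x₀ z → (z, τ z x₀) ∈ SkelE_A G τ x₀ := fun z hz =>
    SkelE_memy hs hx0 ((hb.bip x₀ z hz).1 hx0) hx0 hz
  have hbdm : ∀ z, G.Adj x₀ z → (((z, τ z x₀), (x₀, false)) : (V × Bool) × (V × Bool)) ∈ bd (spl G τ) (SkelE_A G τ x₀) := by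
    intro z hz
    rw [mem_bd]
    refine ⟨hm z hz, ?_, (SkelE_adj hs hx0 hz).symm⟩
    rw [SkelE_mem]
    exact fun h => h.1 rfl
  rcases Nat.lt_or_ge (nb G x₀).card 3 with h3 | h3
  · have h4 : (nb G x₀).card = 2 := by omega
    rw [h4] at hcfg
    obtain ⟨c, p, hsol, _, _⟩ := star (spl G τ) (SkelE_A G τ x₀) hcfg (y, τ y x₀) (x₀, false) (hm y hy)
      (SkelE_adj hs hx0 hy).symm
    exact SkelE_main G X hb τ hs x₀ hx0 c p hsol (Or.inl h4.le)
  · have h4 : (nb G x₀).card = 3 := by omega
    rw [h4] at hcfg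
    obtain ⟨y₁, y₂, y₃, h12, h13, h23, hn⟩ := Finset.card_eq_three.1 h4
    have a1 : G.Adj x₀ y₁ := by
      rw [← mem_nb, hn]
      simp
    have a2 : G.Adj x₀ y₂ := by
      rw [← mem_nb, hn]
      simp
    have a3 : G.Adj x₀ y₃ := by
      rw [← mem_nb, hn]
      simp
    have hq : ∀ a b : V, a ≠ b → (((a, τ a x₀), (x₀, false)) : (V × Bool) × (V × Bool)) ≠ ((b, τ b x₀), (x₀, false)) := by
      intro a b hab h
      exact hab (congrArg (fun q : (V × Bool) × (V × Bool) => q.1.1) h)
    obtain ⟨k₁, k₂, hall⟩ := three (spl G τ) (SkelE_A G τ x₀) hcfg _ _ _ (hbdm y₁ a1) (hbdm y₂ a2) (hbdm y₃ a3)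
      (hq _ _ h12) (hq _ _ h13) (hq _ _ h23)
    obtain ⟨c, p, hsol, e1, _, e3, _⟩ := hall (!k₁)
    refine SkelE_main G X hb τ hs x₀ hx0 c p hsol (Or.inr ⟨y₁, mem_nb.2 a1, y₃, mem_nb.2 a3, ?_⟩)
    unfold SkelE_P
    dsimp only at e1 e3
    rw [e1, e3]
    cases k₁ <;> simp

end Pool.Agent.H70.TF
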