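import Pool.Agent.H70.TF.Defs

/-!
# The splitting lemma, one vertex

`split_one`: let `spl G τ` be two-edge-connected, `y` a vertex of degree 4 with `τ y w = false` for all `w`.  Then `τ y` can be changed
(only at `y`) so that two of the neighbours are attached to `(y, true)`, two to `(y, false)`, and the graph stays
two-edge-connected.

Proof.  `SplitA_in S`: the boundary pairs of `S` away from `y`.  For all `f` the number of boundary pairs of `S` in the graph with `τ y = f` is the number of
the pairs in `SplitA_in S` plus the number of neighbours `w` of `y` such that exactly one of `(w, τ w y)`, `(y, f w)` is in `S` (`SplitA_card`).  If the graph for `f` is not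
two-edge-connected there are `T` and `i` such that `(w, τ w y)` is in `T` iff `f w = i`, and at most one pair in `SplitA_in T` (`SplitA_fail`).  If this happens for two
crossing `f`, `g` with `T`, `U`, each of the four quadrants has one `(w, τ w y)`, so at least one edge to another quadrant: impossible (`SplitA_quad`).
-/

set_option autoImplicit false

noncomputable section

namespace Pool.Agent.H70.TF

open Finset

variable {V : Type} [Fintype V]

open Classical in
/-- The boundary pairs away from `y`. -/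
def SplitA_in (G : SimpleGraph V) (τ : V → V → Bool) (y : V) (S : Finset (V × Bool)) : Finset ((V × Bool) × (V × Bool)) :=
  univ.filter (fun q => q.1 ∈ S ∧ q.2 ∉ S ∧ q.1.1 ≠ y ∧ q.2.1 ≠ y ∧ (spl G τ).Adj q.1 q.2)

open Classical in
/-- `τ` changed at `y`. -/
def SplitA_tau (τ : V → V → Bool) (y : V) (f : V → Bool) : V → V → Bool := fun v w => if v = y then f w else τ v w

theorem SplitA_tau_y (τ : V → V → Bool) (y : V) (f : V → Bool) (w : V) : SplitA_tau τ y f y w = f w := by
  simp [SplitA_tau]

theorem SplitA_tau_ne (τ : V → V → Bool) (y : V) (f : V → Bool) (v : V) (hv : v ≠ y) : SplitA_tau τ y f v = τ v := by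
  funext w
  simp [SplitA_tau, hv]

theorem SplitA_tau_false (τ : V → V → Bool) (y : V) (hτ : ∀ w, τ y w = false) : SplitA_tau τ y (fun _ => false) = τ := by
  funext v w
  by_cases hv : v = y
  · subst hv
    rw [SplitA_tau_y, hτ]
  · rw [SplitA_tau_ne τ y _ v hv]

open Classical in
/-- The neighbours whose edge to `y` is in the boundary. -/
def SplitA_d (G : SimpleGraph V) (τ : V → V → Bool) (y : V) (f : V → Bool) (S : Finset (V × Bool)) : Finset V :=
  (nb G y).filter (fun w => ¬ ((w, τ w y) ∈ S ↔ (y, f w) ∈ S))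

/-- Adjacency away from `y`. -/
theorem SplitA_adj (G : SimpleGraph V) (τ : V → V → Bool) (y : V) (f : V → Bool) (a b : V × Bool) (ha : a.1 ≠ y) (hb : b.1 ≠ y) :
    (spl G (SplitA_tau τ y f)).Adj a b ↔ (spl G τ).Adj a b := by
  show (G.Adj a.1 b.1 ∧ SplitA_tau τ y f a.1 b.1 = a.2 ∧ SplitA_tau τ y f b.1 a.1 = b.2) ↔
    (G.Adj a.1 b.1 ∧ τ a.1 b.1 = a.2 ∧ τ b.1 a.1 = b.2)
  rw [SplitA_tau_ne τ y f a.1 ha, SplitA_tau_ne τ y f b.1 hb]

/-- Adjacency at `y`. -/
theorem SplitA_adjy (G : SimpleGraph V) (τ : V → V → Bool) (y : V) (f : V → Bool) (i : Bool) (b : V × Bool) :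
    (spl G (SplitA_tau τ y f)).Adj (y, i) b ↔ (G.Adj y b.1 ∧ f b.1 = i ∧ b = (b.1, τ b.1 y)) := by
  show (G.Adj y b.1 ∧ SplitA_tau τ y f y b.1 = i ∧ SplitA_tau τ y f b.1 y = b.2) ↔ _
  constructor
  · rintro ⟨h1, h2, h3⟩
    rw [SplitA_tau_y] at h2
    rw [SplitA_tau_ne τ y f b.1 h1.ne'] at h3
    exact ⟨h1, h2, Prod.ext rfl h3.symm⟩
  · rintro ⟨h1, h2, h3⟩
    rw [SplitA_tau_y, SplitA_tau_ne τ y f b.1 h1.ne']
    exact ⟨h1, h2, by rw [h3]⟩

theorem SplitA_card (G : SimpleGraph V) (τ : V → V → Bool) (y : V) (f : V → Bool) (S : Finset (V × Bool)) :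
    (bd (spl G (SplitA_tau τ y f)) S).card = (SplitA_in G τ y S).card + (SplitA_d G τ y f S).card := by
  classical
  rw [← Finset.card_filter_add_card_filter_not (s := bd (spl G (SplitA_tau τ y f)) S) (fun q => q.1.1 ≠ y ∧ q.2.1 ≠ y)]
  congr 1
  · congr 1
    ext q
    simp only [mem_filter, mem_bd, SplitA_in, mem_univ, true_and]
    constructor
    · rintro ⟨⟨h1, h2, h3⟩, h4, h5⟩
      exact ⟨h1, h2, h4, h5, (SplitA_adj G τ y f _ _ h4 h5).1 h3⟩
    · rintro ⟨h1, h2, h4, h5, h3⟩
      exact ⟨⟨h1, h2, (SplitA_adj G τ y f _ _ h4 h5).2 h3⟩, h4, h5⟩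
  · refine Finset.card_nbij' (fun q => if q.1.1 = y then q.2.1 else q.1.1)
      (fun w => if (w, τ w y) ∈ S then ((w, τ w y), (y, f w)) else ((y, f w), (w, τ w y))) ?_ ?_ ?_ ?_
    · rintro ⟨a, b⟩ hq
      simp only [coe_filter, mem_bd, Set.mem_ofPred_eq] at hq
      obtain ⟨⟨h1, h2, h3⟩, h4⟩ := hq
      simp only [SplitA_d, coe_filter, Set.mem_ofPred_eq, mem_nb]
      by_cases ha : a.1 = y
      · obtain ⟨a1, a2⟩ := a
        dsimp only at ha
        subst ha
        rw [SplitA_adjy] at h3
        obtain ⟨g1, g2, g3⟩ := h3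
        rw [if_pos rfl]
        refine ⟨g1, fun h => ?_⟩
        rw [← g3, g2] at h
        exact h2 (h.2 h1)
      · rw [if_neg ha]
        have hb : b.1 = y := by
          by_contra hb
          exact h4 ⟨ha, hb⟩
        obtain ⟨b1, b2⟩ := b
        dsimp only at hb
        subst hb
        have h3' := h3.symm
        rw [SplitA_adjy] at h3'
        obtain ⟨g1, g2, g3⟩ := h3'
        refine ⟨g1, fun h => ?_⟩
        rw [← g3, g2] at h
        exact h2 (h.1 h1)
    · intro w hw
      simp only [SplitA_d, coe_filter, Set.mem_ofPred_eq, mem_nb] at hw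
      obtain ⟨h1, h2⟩ := hw
      simp only [coe_filter, mem_bd, Set.mem_ofPred_eq]
      have hadj : (spl G (SplitA_tau τ y f)).Adj (y, f w) (w, τ w y) := (SplitA_adjy G τ y f _ _).2 ⟨h1, rfl, rfl⟩
      by_cases hS : (w, τ w y) ∈ S
      · rw [if_pos hS]
        refine ⟨⟨hS, fun h => h2 ⟨fun _ => h, fun _ => hS⟩, hadj.symm⟩, fun h => h.2 rfl⟩
      · rw [if_neg hS]
        refine ⟨⟨?_, hS, hadj⟩, fun h => h.1 rfl⟩
        by_contra hc
        exact h2 ⟨fun h => absurd h hS, fun h => absurd h hc⟩
    · rintro ⟨a, b⟩ hq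
      simp only [coe_filter, mem_bd, Set.mem_ofPred_eq] at hq
      obtain ⟨⟨h1, h2, h3⟩, h4⟩ := hq
      by_cases ha : a.1 = y
      · obtain ⟨a1, a2⟩ := a
        dsimp only at ha
        subst ha
        rw [SplitA_adjy] at h3
        obtain ⟨g1, g2, g3⟩ := h3
        dsimp only
        rw [if_pos rfl, ← g3, if_neg h2, g2]
      · have hb : b.1 = y := by
          by_contra hb
          exact h4 ⟨ha, hb⟩
        obtain ⟨b1, b2⟩ := b
        dsimp only at hb
        subst hb
        have h3' := h3.symm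
        rw [SplitA_adjy] at h3'
        obtain ⟨g1, g2, g3⟩ := h3'
        dsimp only
        rw [if_neg ha, ← g3, if_pos h1, g2]
    · intro w hw
      simp only [SplitA_d, coe_filter, Set.mem_ofPred_eq, mem_nb] at hw
      obtain ⟨h1, h2⟩ := hw
      dsimp only
      by_cases hS : (w, τ w y) ∈ S
      · rw [if_pos hS]
        dsimp only
        rw [if_neg h1.ne']
      · rw [if_neg hS]
        dsimp only
        rw [if_pos rfl]

/-- The card formula for the old graph. -/
theorem SplitA_card0 (G : SimpleGraph V) (τ : V → V → Bool) (y : V) (hτ : ∀ w, τ y w = false) (S : Finset (V × Bool)) :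
    (bd (spl G τ) S).card = (SplitA_in G τ y S).card + (SplitA_d G τ y (fun _ => false) S).card := by
  rw [← SplitA_card G τ y (fun _ => false) S, SplitA_tau_false τ y hτ]

theorem SplitA_parity {W : Type} (s : Finset W) (P Q : W → Prop) [DecidablePred P] [DecidablePred Q]
    [DecidablePred (fun w => ¬ (P w ↔ Q w))] [DecidablePred (fun w => P w ∧ Q w)] :
    (s.filter P).card + (s.filter Q).card = (s.filter (fun w => ¬ (P w ↔ Q w))).card + 2 * (s.filter (fun w => P w ∧ Q w)).card := by
  rw [Finset.card_filter, Finset.card_filter, Finset.card_filter, Finset.card_filter, ← Finset.sum_add_distrib, Finset.mul_sum,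
    ← Finset.sum_add_distrib]
  apply Finset.sum_congr rfl
  intro w _
  by_cases hP : P w <;> by_cases hQ : Q w <;> simp [hP, hQ]

/-- A failure gives a set which follows `f`. -/
theorem SplitA_fail (G : SimpleGraph V) (τ : V → V → Bool) (y : V) (h2 : E2 (spl G τ)) (hy : (nb G y).card = 4)
    (hτ : ∀ w, τ y w = false) (f : V → Bool) (hf : ∀ i : Bool, ((nb G y).filter (fun w => f w = i)).card = 2)
    (hn : ¬ E2 (spl G (SplitA_tau τ y f))) :
    ∃ (T : Finset (V × Bool)) (i : Bool), (∀ w ∈ nb G y, ((w, τ w y) ∈ T ↔ f w = i)) ∧ (SplitA_in G τ y T).card ≤ 1 := by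
  classical
  unfold E2 at hn
  push Not at hn
  obtain ⟨S, ⟨u, hu, w, huw⟩, ⟨v, hv, w', hvw⟩, hlt⟩ := hn
  rw [SplitA_card] at hlt
  -- a vertex which is not over `y` and not isolated in the new graph is not isolated in the old graph
  have hiso : ∀ a b : V × Bool, a.1 ≠ y → (spl G (SplitA_tau τ y f)).Adj a b → ∃ b', (spl G τ).Adj a b' := by
    intro a b ha hab
    by_cases hb : b.1 = y
    · obtain ⟨b1, b2⟩ := b
      dsimp only at hb
      subst hb
      have h3 := hab.symm
      rw [SplitA_adjy] at h3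
      obtain ⟨g1, g2, g3⟩ := h3
      refine ⟨(b1, false), g1.symm, ?_, hτ _⟩
      rw [g3]
    · exact ⟨b, (SplitA_adj G τ y f a b ha hb).1 hab⟩
  obtain ⟨n, hn⟩ : (nb G y).Nonempty := by
    rw [← Finset.card_pos, hy]
    norm_num
  have hyn : (spl G τ).Adj (y, false) (n, τ n y) := ⟨mem_nb.1 hn, hτ _, rfl⟩
  by_cases hside : (y, false) ∈ S ↔ (y, true) ∈ S
  · exfalso
    have hd : SplitA_d G τ y f S = SplitA_d G τ y (fun _ => false) S := by
      unfold SplitA_d
      apply Finset.filter_congr
      intro w _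
      cases f w
      · rfl
      · rw [hside]
    rw [hd, ← SplitA_card0 G τ y hτ] at hlt
    have h3 := h2 S ?_ ?_
    · omega
    · by_cases hu1 : u.1 = y
      · refine ⟨(y, false), ?_, _, hyn⟩
        obtain ⟨u1, u2⟩ := u
        dsimp only at hu1
        subst hu1
        cases u2
        · exact hu
        · exact hside.2 hu
      · obtain ⟨b, hb⟩ := hiso u w hu1 huw
        exact ⟨u, hu, b, hb⟩
    · by_cases hv1 : v.1 = y
      · refine ⟨(y, false), ?_, _, hyn⟩
        obtain ⟨v1, v2⟩ := v
        dsimp only at hv1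
        subst hv1
        cases v2
        · exact hv
        · exact fun h => hv (hside.1 h)
      · obtain ⟨b, hb⟩ := hiso v w' hv1 hvw
        exact ⟨v, hv, b, hb⟩
  · -- the number of neighbours inside
    set Nin : Finset V := (nb G y).filter (fun w => (w, τ w y) ∈ S) with hNin
    set Nout : Finset V := (nb G y).filter (fun w => (w, τ w y) ∉ S) with hNout
    have hsum : Nin.card + Nout.card = 4 := by
      rw [← hy, hNin, hNout]
      exact Finset.card_filter_add_card_filter_not _
    have hin1 : Nin.Nonempty → 2 ≤ (SplitA_in G τ y S).card + Nin.card := by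
      rintro ⟨w₁, hw₁⟩
      rw [hNin, mem_filter] at hw₁
      have h3 := h2 (S.filter (fun z => z.1 ≠ y)) ⟨(w₁, τ w₁ y), ?_, (y, false), (by
        have := mem_nb.1 hw₁.1
        exact ⟨this.symm, rfl, hτ _⟩)⟩ ⟨(y, false), (fun h => (Finset.mem_filter.1 h).2 rfl), _, hyn⟩
      · rw [SplitA_card0 G τ y hτ] at h3
        have h4 : SplitA_in G τ y (S.filter (fun z => z.1 ≠ y)) = SplitA_in G τ y S := by
          unfold SplitA_in
          apply Finset.filter_congr
          intro q _
          simp only [mem_filter]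
          tauto
        have h5 : SplitA_d G τ y (fun _ => false) (S.filter (fun z => z.1 ≠ y)) = Nin := by
          rw [hNin]
          unfold SplitA_d
          apply Finset.filter_congr
          intro w hw
          have : w ≠ y := (mem_nb.1 hw).ne'
          simp only [mem_filter]
          tauto
        rw [h4, h5] at h3
        exact h3
      · rw [Finset.mem_filter]
        exact ⟨hw₁.2, (mem_nb.1 hw₁.1).ne'⟩
    have hout1 : Nout.Nonempty → 2 ≤ (SplitA_in G τ y S).card + Nout.card := by
      rintro ⟨w₁, hw₁⟩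
      rw [hNout, mem_filter] at hw₁
      have h3 := h2 (insert (y, false) (insert (y, true) S)) ⟨(y, false), Finset.mem_insert_self _ _, _, hyn⟩
        ⟨(w₁, τ w₁ y), ?_, (y, false), (by
        have := mem_nb.1 hw₁.1
        exact ⟨this.symm, rfl, hτ _⟩)⟩
      · rw [SplitA_card0 G τ y hτ] at h3
        have h4 : SplitA_in G τ y (insert (y, false) (insert (y, true) S)) = SplitA_in G τ y S := by
          unfold SplitA_in
          apply Finset.filter_congr
          rintro ⟨a, b⟩ _
          simp only [mem_insert]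
          constructor
          · rintro ⟨g1, g2, g3, g4, g5⟩
            refine ⟨?_, fun h => g2 (Or.inr (Or.inr h)), g3, g4, g5⟩
            rcases g1 with g1 | g1 | g1
            · exact absurd (congrArg Prod.fst g1) g3
            · exact absurd (congrArg Prod.fst g1) g3
            · exact g1
          · rintro ⟨g1, g2, g3, g4, g5⟩
            refine ⟨Or.inr (Or.inr g1), ?_, g3, g4, g5⟩
            rintro (h | h | h)
            · exact absurd (congrArg Prod.fst h) g4
            · exact absurd (congrArg Prod.fst h) g4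
            · exact g2 h
        have h5 : SplitA_d G τ y (fun _ => false) (insert (y, false) (insert (y, true) S)) = Nout := by
          rw [hNout]
          unfold SplitA_d
          apply Finset.filter_congr
          intro w hw
          have : w ≠ y := (mem_nb.1 hw).ne'
          simp only [mem_insert, Prod.mk.injEq, this, false_and, false_or, true_or, iff_true]
        rw [h4, h5] at h3
        exact h3
      · simp only [mem_insert, Prod.mk.injEq, not_or]
        have := (mem_nb.1 hw₁.1).ne'
        exact ⟨fun h => this h.1, fun h => this h.1, hw₁.2⟩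
    obtain ⟨i, hi, hi'⟩ : ∃ i : Bool, (y, i) ∈ S ∧ (y, !i) ∉ S := by
      by_cases h3 : (y, false) ∈ S
      · exact ⟨false, h3, fun h => hside ⟨fun _ => h, fun _ => h3⟩⟩
      · refine ⟨true, ?_, h3⟩
        by_contra h4
        exact hside ⟨fun h => absurd h h3, fun h => absurd h h4⟩
    have hfi : ∀ w, ((y, f w) ∈ S ↔ f w = i) := by
      intro w
      constructor
      · intro h
        by_contra hne
        have : f w = !i := by
          cases h5 : f w <;> cases h6 : i <;> simp_all
        rw [this] at h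
        exact hi' h
      · intro h
        rw [h]
        exact hi
    have hd : SplitA_d G τ y f S = (nb G y).filter (fun w => ¬ ((w, τ w y) ∈ S ↔ f w = i)) := by
      unfold SplitA_d
      apply Finset.filter_congr
      intro w _
      rw [hfi w]
    have hpar := SplitA_parity (nb G y) (fun w => (w, τ w y) ∈ S) (fun w => f w = i)
    rw [hf i, ← hd] at hpar
    have hNn : ((nb G y).filter (fun w => (w, τ w y) ∈ S)).card = Nin.card := rfl
    rw [hNn] at hpar
    have h6 : 0 < Nin.card → 2 ≤ (SplitA_in G τ y S).card + Nin.card := fun h => hin1 (Finset.card_pos.1 h)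
    have h7 : 0 < Nout.card → 2 ≤ (SplitA_in G τ y S).card + Nout.card := fun h => hout1 (Finset.card_pos.1 h)
    refine ⟨S, i, fun w hw => ?_, by omega⟩
    by_contra hc
    have hdpos : 0 < (SplitA_d G τ y f S).card := by
      rw [Finset.card_pos, hd]
      exact ⟨w, Finset.mem_filter.2 ⟨hw, hc⟩⟩
    omega

theorem SplitA_bool : ∀ p1 p2 α β i j : Bool, ((p1 = i ↔ α = true) ∧ (p2 = j ↔ β = true) ↔
    (p1 = if α then i else !i) ∧ p2 = if β then j else !j) := by
  decide

/-- Four quadrants with an edge to another quadrant need two edges across one of the two cuts. -/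
theorem SplitA_quad {W : Type} (R : W → W → Prop) (hR : ∀ a b, R a b → R b a) (T U : W → Prop)
    (hT : ∀ a b a' b', R a b → R a' b' → T a → ¬ T b → T a' → ¬ T b' → a = a' ∧ b = b')
    (hU : ∀ a b a' b', R a b → R a' b' → U a → ¬ U b → U a' → ¬ U b' → a = a' ∧ b = b')
    (h1 : ∃ a b, R a b ∧ T a ∧ U a ∧ ¬ (T b ∧ U b)) (h2 : ∃ a b, R a b ∧ T a ∧ ¬ U a ∧ ¬ (T b ∧ ¬ U b))
    (h3 : ∃ a b, R a b ∧ ¬ T a ∧ U a ∧ ¬ (¬ T b ∧ U b)) (h4 : ∃ a b, R a b ∧ ¬ T a ∧ ¬ U a ∧ ¬ (¬ T b ∧ ¬ U b)) : False := by
  obtain ⟨a, a', ra, a1, a2, a3⟩ := h1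
  obtain ⟨b, b', rb, b1, b2, b3⟩ := h2
  obtain ⟨c, c', rc, c1, c2, c3⟩ := h3
  obtain ⟨d, d', rd, d1, d2, d3⟩ := h4
  by_cases ha : T a'
  · have ha' : ¬ U a' := fun h => a3 ⟨ha, h⟩
    have hc : T c' := by
      by_contra hc
      have hc' : ¬ U c' := fun h => c3 ⟨hc, h⟩
      have := hU a a' c c' ra rc a2 ha' c2 hc'
      exact c1 (this.1 ▸ a1)
    have hd : T d' := by
      by_contra hd
      have hd' : U d' := by
        by_contra h
        exact d3 ⟨hd, h⟩
      have := hU a a' d' d ra (hR _ _ rd) a2 ha' hd' d2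
      exact d1 (this.2 ▸ ha)
    have := hT c' c d' d (hR _ _ rc) (hR _ _ rd) hc c1 hd d1
    exact d2 (this.2 ▸ c2)
  · by_cases hb : T b'
    · have hb' : U b' := by
        by_contra h
        exact b3 ⟨hb, h⟩
      have hc : T c' := by
        by_contra hc
        have hc' : ¬ U c' := fun h => c3 ⟨hc, h⟩
        have := hU b' b c c' (hR _ _ rb) rc hb' b2 c2 hc'
        exact c1 (this.1 ▸ hb)
      have hd : T d' := by
        by_contra hd
        have hd' : U d' := by
          by_contra h
          exact d3 ⟨hd, h⟩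
        have := hU b' b d' d (hR _ _ rb) (hR _ _ rd) hb' b2 hd' d2
        exact d1 (this.2 ▸ b1)
      have := hT c' c d' d (hR _ _ rc) (hR _ _ rd) hc c1 hd d1
      exact d2 (this.2 ▸ c2)
    · have := hT a a' b b' ra rb a1 ha b1 hb
      exact b2 (this.1 ▸ a2)

theorem split_one (G : SimpleGraph V) (τ : V → V → Bool) (y : V) (h2 : E2 (spl G τ)) (hy : (nb G y).card = 4)
    (hτ : ∀ w, τ y w = false) :
    ∃ τ' : V → V → Bool, (∀ v, v ≠ y → τ' v = τ v) ∧
      (∀ i : Bool, ((nb G y).filter (fun w => τ' y w = i)).card = 2) ∧ E2 (spl G τ') := by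
  classical
  by_contra hcon
  -- the four neighbours
  have hcard : Fintype.card {w // w ∈ nb G y} = Fintype.card (Bool × Bool) := by
    rw [Fintype.card_coe, hy]
    rfl
  let e : {w // w ∈ nb G y} ≃ Bool × Bool := Fintype.equivOfCardEq hcard
  let n : Bool × Bool → V := fun p => (e.symm p).1
  have hnm : ∀ p, n p ∈ nb G y := fun p => (e.symm p).2
  have hninj : Function.Injective n := fun p q h => e.symm.injective (Subtype.ext h)
  have hns : ∀ w ∈ nb G y, ∃ p, n p = w := fun w hw => ⟨e ⟨w, hw⟩, by simp [n]⟩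
  let f : V → Bool := fun w => if h : w ∈ nb G y then (e ⟨w, h⟩).1 else false
  let g : V → Bool := fun w => if h : w ∈ nb G y then (e ⟨w, h⟩).2 else false
  have hfn : ∀ p, f (n p) = p.1 := by
    intro p
    show (if h : n p ∈ nb G y then (e ⟨n p, h⟩).1 else false) = p.1
    rw [dif_pos (hnm p)]
    have : (⟨n p, hnm p⟩ : {w // w ∈ nb G y}) = e.symm p := rfl
    rw [this, e.apply_symm_apply]
  have hgn : ∀ p, g (n p) = p.2 := by
    intro p
    show (if h : n p ∈ nb G y then (e ⟨n p, h⟩).2 else false) = p.2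
    rw [dif_pos (hnm p)]
    have : (⟨n p, hnm p⟩ : {w // w ∈ nb G y}) = e.symm p := rfl
    rw [this, e.apply_symm_apply]
  have himg : ∀ (P : V → Prop), (nb G y).filter P = (univ.filter (fun p => P (n p))).image n := by
    intro P
    ext w
    simp only [mem_filter, mem_image, mem_univ, true_and]
    constructor
    · rintro ⟨h1, h3⟩
      obtain ⟨p, rfl⟩ := hns w h1
      exact ⟨p, h3, rfl⟩
    · rintro ⟨p, h1, rfl⟩
      exact ⟨hnm p, h1⟩
  have hf : ∀ i : Bool, ((nb G y).filter (fun w => f w = i)).card = 2 := by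
    intro i
    have h1 := himg (fun w => f w = i)
    have h3 : ((nb G y).filter (fun w => f w = i)).card = (univ.filter (fun p : Bool × Bool => p.1 = i)).card := by
      have h4 : (univ.filter (fun p => f (n p) = i)) = univ.filter (fun p : Bool × Bool => p.1 = i) := by
        ext p
        simp [hfn]
      have h5 : ((nb G y).filter (fun w => f w = i)).card = ((univ.filter (fun p => f (n p) = i)).image n).card := by
        convert congrArg Finset.card h1
      rw [h5, Finset.card_image_of_injective _ hninj, h4]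
    rw [h3]
    cases i <;> decide
  have hg : ∀ i : Bool, ((nb G y).filter (fun w => g w = i)).card = 2 := by
    intro i
    have h1 := himg (fun w => g w = i)
    have h3 : ((nb G y).filter (fun w => g w = i)).card = (univ.filter (fun p : Bool × Bool => p.2 = i)).card := by
      have h4 : (univ.filter (fun p => g (n p) = i)) = univ.filter (fun p : Bool × Bool => p.2 = i) := by
        ext p
        simp [hgn]
      have h5 : ((nb G y).filter (fun w => g w = i)).card = ((univ.filter (fun p => g (n p) = i)).image n).card := by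
        convert congrArg Finset.card h1
      rw [h5, Finset.card_image_of_injective _ hninj, h4]
    rw [h3]
    cases i <;> decide
  have hfail : ∀ f' : V → Bool, (∀ i : Bool, ((nb G y).filter (fun w => f' w = i)).card = 2) →
      ¬ E2 (spl G (SplitA_tau τ y f')) := by
    intro f' hf' he
    apply hcon
    refine ⟨SplitA_tau τ y f', fun v hv => SplitA_tau_ne τ y f' v hv, fun i => ?_, he⟩
    have := hf' i
    simp only [SplitA_tau_y]
    convert this
  obtain ⟨T, i, hT1, hT2⟩ := SplitA_fail G τ y h2 hy hτ f hf (hfail f hf)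
  obtain ⟨U, j, hU1, hU2⟩ := SplitA_fail G τ y h2 hy hτ g hg (hfail g hg)
  -- edges out of a quadrant
  have hQ : ∀ (α β : Bool), ∃ a b : V × Bool, (a.1 ≠ y ∧ b.1 ≠ y ∧ (spl G τ).Adj a b) ∧
      ((a ∈ T ↔ α = true) ∧ (a ∈ U ↔ β = true)) ∧ ¬ ((b ∈ T ↔ α = true) ∧ (b ∈ U ↔ β = true)) := by
    intro α β
    set Q : Finset (V × Bool) := univ.filter (fun a => a.1 ≠ y ∧ (a ∈ T ↔ α = true) ∧ (a ∈ U ↔ β = true)) with hQdef
    have hmQ : ∀ a, a ∈ Q ↔ (a.1 ≠ y ∧ (a ∈ T ↔ α = true) ∧ (a ∈ U ↔ β = true)) := by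
      intro a
      rw [hQdef, mem_filter]
      simp
    -- the pair which belongs to the quadrant
    set p₀ : Bool × Bool := ((if α then i else !i), (if β then j else !j)) with hp₀
    have hone : ∀ p : Bool × Bool, ((n p, τ (n p) y) ∈ Q ↔ p = p₀) := by
      intro p
      rw [hmQ, hT1 (n p) (hnm p), hU1 (n p) (hnm p), hfn, hgn]
      have hny : n p ≠ y := (mem_nb.1 (hnm p)).ne'
      simp only [ne_eq, hny, not_false_eq_true, true_and]
      rw [hp₀]
      obtain ⟨p1, p2⟩ := p
      simp only [Prod.mk.injEq]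
      exact SplitA_bool p1 p2 α β i j
    have hdc : (SplitA_d G τ y (fun _ => false) Q).card = 1 := by
      have h1 : SplitA_d G τ y (fun _ => false) Q = {n p₀} := by
        ext w
        rw [mem_singleton]
        unfold SplitA_d
        rw [mem_filter]
        have hyQ : (y, false) ∉ Q := fun h => ((hmQ _).1 h).1 rfl
        constructor
        · rintro ⟨h1, h3⟩
          obtain ⟨p, rfl⟩ := hns w h1
          have h4 : (n p, τ (n p) y) ∈ Q := by
            by_contra h
            exact h3 ⟨fun h' => absurd h' h, fun h' => absurd h' hyQ⟩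
          rw [(hone p).1 h4]
        · rintro rfl
          exact ⟨hnm p₀, fun h => hyQ (h.1 ((hone p₀).2 rfl))⟩
      rw [h1, Finset.card_singleton]
    have hb := h2 Q ⟨_, (hone p₀).2 rfl, (y, false), (mem_nb.1 (hnm p₀)).symm, rfl, hτ _⟩
      ⟨(y, false), fun h => ((hmQ _).1 h).1 rfl, (n p₀, τ (n p₀) y), mem_nb.1 (hnm p₀), hτ _, rfl⟩
    rw [SplitA_card0 G τ y hτ, hdc] at hb
    obtain ⟨⟨a, b⟩, hab⟩ : (SplitA_in G τ y Q).Nonempty := by
      rw [← Finset.card_pos]
      omega
    unfold SplitA_in at hab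
    rw [mem_filter] at hab
    obtain ⟨_, h1, h3, h4, h5, h6⟩ := hab
    refine ⟨a, b, ⟨h4, h5, h6⟩, ((hmQ a).1 h1).2, fun h => h3 ((hmQ b).2 ⟨h5, h⟩)⟩
  have huniq : ∀ S : Finset (V × Bool), (SplitA_in G τ y S).card ≤ 1 → ∀ a b a' b' : V × Bool,
      (a.1 ≠ y ∧ b.1 ≠ y ∧ (spl G τ).Adj a b) → (a'.1 ≠ y ∧ b'.1 ≠ y ∧ (spl G τ).Adj a' b') → a ∈ S → b ∉ S → a' ∈ S → b' ∉ S →
      a = a' ∧ b = b' := by
    intro S hS a b a' b' h1 h3 h4 h5 h6 h7
    have h8 : (a, b) ∈ SplitA_in G τ y S := by
      unfold SplitA_in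
      rw [mem_filter]
      exact ⟨mem_univ _, h4, h5, h1.1, h1.2.1, h1.2.2⟩
    have h9 : (a', b') ∈ SplitA_in G τ y S := by
      unfold SplitA_in
      rw [mem_filter]
      exact ⟨mem_univ _, h6, h7, h3.1, h3.2.1, h3.2.2⟩
    have := Finset.card_le_one.1 hS _ h8 _ h9
    rw [Prod.mk.injEq] at this
    exact this
  refine SplitA_quad (fun a b : V × Bool => a.1 ≠ y ∧ b.1 ≠ y ∧ (spl G τ).Adj a b) (fun a b h => ⟨h.2.1, h.1, h.2.2.symm⟩)
    (fun a => a ∈ T) (fun a => a ∈ U) (huniq T hT2) (huniq U hU2) ?_ ?_ ?_ ?_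
  · obtain ⟨a, b, h1, h3, h4⟩ := hQ true true
    exact ⟨a, b, h1, by simpa using h3.1, by simpa using h3.2, by simpa using h4⟩
  · obtain ⟨a, b, h1, h3, h4⟩ := hQ true false
    exact ⟨a, b, h1, by simpa using h3.1, by simpa using h3.2, by simpa using h4⟩
  · obtain ⟨a, b, h1, h3, h4⟩ := hQ false true
    exact ⟨a, b, h1, by simpa using h3.1, by simpa using h3.2, by simpa using h4⟩
  · obtain ⟨a, b, h1, h3, h4⟩ := hQ false false
    exact ⟨a, b, h1, by simpa using h3.1, by simpa using h3.2, by simpa using h4⟩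

end Pool.Agent.H70.TF
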