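import Pool.Agent.H70.TF.Defs
import Pool.Agent.H4.BI.Core

/-!
# The star theorem (helper4)

`star`: in a configuration with two boundary edges there is for every edge `s t` (`s` in `A`) a solution in which `s t` is
not picked.  `three`: with three boundary edges, solutions in which the third boundary edge is not picked and has `kap = b`, for
both `b`, and the values of `kap` at the first two boundary edges are the same for both.
The proofs are in `Pool.Agent.H4.BI.Core`; this file translates them.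
-/

set_option autoImplicit false

noncomputable section

namespace Pool.Agent.H70.TF

open Finset

variable {V : Type} [Fintype V]

theorem Star_bd [DecidableEq V] (H : SimpleGraph V) (S : Finset V) : Pool.Agent.H4.BI.bd H S = bd H S := by
  ext q
  rw [mem_bd, Pool.Agent.H4.BI.mem_bd]

theorem Star_deg [DecidableEq V] (H : SimpleGraph V) (v : V) :
    (Pool.Agent.H4.BI.bd H {v}).card = (nb H v).card := by
  apply Finset.card_bij (fun q _ => q.2)
  · intro q hq
    rw [Pool.Agent.H4.BI.mem_bd, mem_singleton] at hq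
    rw [mem_nb, ← hq.1]
    exact hq.2.2
  · intro a ha b hb hab
    rw [Pool.Agent.H4.BI.mem_bd, mem_singleton] at ha hb
    exact Prod.ext (ha.1.trans hb.1.symm) hab
  · intro w hw
    rw [mem_nb] at hw
    refine ⟨(v, w), ?_, rfl⟩
    rw [Pool.Agent.H4.BI.mem_bd]
    exact ⟨by simp, by simpa using hw.ne', hw⟩

theorem Star_cfg [DecidableEq V] {H : SimpleGraph V} {A : Finset V} {k : ℕ} (h : Config H A k) :
    Pool.Agent.H4.BI.Cfg H A := by
  refine ⟨?_, ?_⟩
  · intro v hv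
    rw [Star_deg]
    exact h.deg v hv
  · intro S hS hn
    rw [Star_bd]
    exact h.two S hS hn

theorem Star_kap (c : V → Bool) (p : V → V) (v w : V) [DecidableEq V] :
    Pool.Agent.H4.BI.kap c p v w = kap c p v w := by
  unfold Pool.Agent.H4.BI.kap kap
  congr

theorem Star_sol [DecidableEq V] {H : SimpleGraph V} {A : Finset V} {c : V → Bool} {p : V → V}
    (h : Pool.Agent.H4.BI.Sol H A c p) : Sol H A c p := by
  refine ⟨h.adj, ?_, fun u hu v hv huv => (h.edge u hu v hv huv).2⟩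
  intro u hu v hv huv
  obtain ⟨h1, h2⟩ := h.edge u hu v hv huv
  unfold Pool.Agent.H4.BI.kap at h1
  by_cases h3 : p u = v
  · have h4 : p v ≠ u := fun h4 => h2 ⟨h3, h4⟩
    rw [if_pos h3, if_neg h4] at h1
    simp only [h3, true_or, iff_true]
    revert h1
    cases c u <;> cases c v <;> simp
  · by_cases h4 : p v = u
    · rw [if_neg h3, if_pos h4] at h1
      simp only [h4, or_true, iff_true]
      revert h1
      cases c u <;> cases c v <;> simp
    · rw [if_neg h3, if_neg h4] at h1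
      simp only [h3, h4, or_self, iff_false]
      intro h5
      exact h1 (by rw [h5])

theorem star (H : SimpleGraph V) (A : Finset V) (h : Config H A 2) (s t : V) (hs : s ∈ A) (hst : H.Adj s t) :
    ∃ (c : V → Bool) (p : V → V), Sol H A c p ∧ p s ≠ t ∧ (t ∈ A → p t ≠ s) := by
  classical
  obtain ⟨c, p, h1, h2, h3⟩ := Pool.Agent.H4.BI.star H A (Star_cfg h) (by rw [Star_bd]; exact h.bdA) s hs t hst
  exact ⟨c, p, Star_sol h1, h2, h3⟩

theorem three (H : SimpleGraph V) (A : Finset V) (h : Config H A 3) (q₁ q₂ q₃ : V × V) (h₁ : q₁ ∈ bd H A)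
    (h₂ : q₂ ∈ bd H A) (h₃ : q₃ ∈ bd H A) (h₁₂ : q₁ ≠ q₂) (h₁₃ : q₁ ≠ q₃) (h₂₃ : q₂ ≠ q₃) :
    ∃ k₁ k₂ : Bool, ∀ b : Bool, ∃ (c : V → Bool) (p : V → V), Sol H A c p ∧
      kap c p q₁.1 q₁.2 = k₁ ∧ kap c p q₂.1 q₂.2 = k₂ ∧ kap c p q₃.1 q₃.2 = b ∧ p q₃.1 ≠ q₃.2 := by
  classical
  rw [mem_bd] at h₁ h₂ h₃
  obtain ⟨K, hK⟩ := Pool.Agent.H4.BI.three H A (Star_cfg h) (by rw [Star_bd]; exact h.bdA) q₃.1 h₃.1 q₃.2
    h₃.2.1 h₃.2.2
  refine ⟨K q₁.1 q₁.2, K q₂.1 q₂.2, fun b => ?_⟩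
  obtain ⟨c, p, s1, s2, s3, s4⟩ := hK b
  refine ⟨c, p, Star_sol s1, ?_, ?_, ?_, s2⟩
  · rw [← Star_kap]
    exact s4 q₁.1 h₁.1 q₁.2 h₁.2.1 h₁.2.2 h₁₃
  · rw [← Star_kap]
    exact s4 q₂.1 h₂.1 q₂.2 h₂.2.1 h₂.2.2 h₂₃
  · rw [← Star_kap]
    exact s3

end Pool.Agent.H70.TF
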